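import Pool.Agent.Helper78.EV2.Run

/-!
# The run lemma in flat form
-/

set_option autoImplicit false

namespace Pool.Agent.Helper78.EV2

open Matrix Pool.Agent.Helper99.ZB Pool.Agent.Helper78.EV

/-- one letter in gap coordinates -/
noncomputable def lt (s : ℂ) (k : ℕ) (c : ℕ → ℂ) (j : ℕ) : ℂ :=
  if j = k + 1 then s * (c k + c (k + 2)) - s ^ 2 * c (k + 1) else c j

/-- a word in gap coordinates, the first letter acts first -/
noncomputable def Ev (s : ℂ) (w : List ℕ) (c : ℕ → ℂ) : ℕ → ℂ := w.foldl (fun c k => lt s k c) c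

/-- the energy of a strand -/
noncomputable def En (x y : ℝ) (a b : ℂ) : ℝ :=
  Real.cosh x * Real.cos y * (‖a‖ ^ 2 + ‖b‖ ^ 2) / 2 - ((starRingEnd ℂ) a * b).re

theorem lt_eq (s : ℂ) (k : ℕ) (c : ℕ → ℂ) : lt s k c = fstep s c k := by
  funext j
  unfold lt fstep
  by_cases h : j = k + 1
  · subst h
    rw [if_pos rfl, Function.update_self]
    ring
  · rw [if_neg h, Function.update_of_ne h]

theorem Ev_eq (s : ℂ) (w : List ℕ) (c : ℕ → ℂ) : Ev s w c = frun s w c := by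
  induction w generalizing c with
  | nil => rfl
  | cons a w ih =>
    have e1 : Ev s (a :: w) c = Ev s w (lt s a c) := rfl
    have e2 : frun s (a :: w) c = frun s w (fstep s c a) := rfl
    rw [e1, e2, ih, lt_eq]

section

variable {n : ℕ} {Lam lam c1 K D x y c d : ℝ} {s : ℂ}

/-- words with a given support acting on arbitrary vectors, with the cross term kept -/
theorem part' (R : Reg n Lam lam c1 K D x y s c d) (hl : 0 < lam) (hL : 0 ≤ Lam)
    (hD : 0 ≤ D) {Q C : ℝ} (hQ1 : 1 ≤ Q) (hQ : Lam ≤ lam * Q ^ 2) (hC : n * (Lam + D) / lam ≤ C)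
    {de : ℝ} (hde : 0 < de) {I : Finset (Fin n)} (hI : EV.Con s c x de I)
    (v : Fin n → ℂ) :
    ∃ z, Sup I z ∧ (∀ a ∈ I, ell s n a ⬝ᵥ (v - z) = 0) ∧
      ‖z‖ ≤ C * ‖v‖ ∧ ∀ w : List (Fin n), (∀ a, a ∈ w ↔ a ∈ I) →
        act s w v = act s w z + (v - z) ∧ ‖act s w z‖ ≤ Q * ‖z‖ ∧
        hh c (act s w v) ≤ hh c v - de * lam * x * ‖z‖ ^ 2 +
          4 * n * Q * D * (1 + C) * x * |y| * ‖z‖ * ‖v‖ := by
  obtain ⟨z, hsup, hell, hz⟩ := R.harm hl hL hD I v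
  have hz' : ‖z‖ ≤ C * ‖v‖ := hz.trans (mul_le_mul_of_nonneg_right hC (norm_nonneg _))
  refine ⟨z, hsup, hell, hz', fun w hw => ?_⟩
  have hfix : act s w (v - z) = v - z := act_fix fun a ha => hell a ((hw a).1 ha)
  have hv : v = z + (v - z) := by abel
  have e1 : act s w v = act s w z + (v - z) := by
    conv_lhs => rw [hv]
    rw [act_add, hfix]
  have hx := R.hx
  have hcon := hI w hw z hsup
  have hnn := R.nonneg hl z
  have hQz : ‖act s w z‖ ≤ Q * ‖z‖ := by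
    have h1 := R.ge hl (act s w z)
    have h2 := R.le z
    have h3 : (1 - de * x) * hh c z ≤ hh c z := by
      have : 0 ≤ de * x * hh c z := by positivity
      linarith
    have h4 : lam * ‖act s w z‖ ^ 2 ≤ lam * (Q * ‖z‖) ^ 2 := by
      have : Lam * ‖z‖ ^ 2 ≤ lam * Q ^ 2 * ‖z‖ ^ 2 :=
        mul_le_mul_of_nonneg_right hQ (sq_nonneg _)
      rw [mul_pow, ← mul_assoc]
      linarith
    have h5 := le_of_mul_le_mul_left h4 hl
    exact le_of_sq_le_sq h5 (by positivity)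
  refine ⟨e1, hQz, ?_⟩
  obtain ⟨r, hr⟩ : ∃ r, r = act s w z - z := ⟨_, rfl⟩
  have hrz : act s w z = r + z := by rw [hr]; abel
  have hr_norm : ‖r‖ ≤ 2 * Q * ‖z‖ := by
    rw [hr]
    refine (norm_sub_le _ _).trans ?_
    have := norm_nonneg z
    nlinarith
  have hr_sup : Sup I r := by
    intro i hi
    rw [hr, Pi.sub_apply, act_sup (fun a ha => (hw a).1 ha) hsup i hi, hsup i hi, sub_zero]
  have hv0 : ‖v - z‖ ≤ (1 + C) * ‖v‖ := by
    refine (norm_sub_le _ _).trans ?_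
    linarith
  have hip : ‖ip c r (v - z)‖ ≤ n * (2 * Q * ‖z‖ * (D * x * |y| * ((1 + C) * ‖v‖))) := by
    have e2 : ip c r (v - z) = ∑ i, (starRingEnd ℂ) (r i) * (-(d * Complex.I * (v - z) i)) := by
      unfold ip
      refine Finset.sum_congr rfl fun i _ => ?_
      by_cases hi : i ∈ I
      · have := R.ell_zero (hell i hi)
        rw [eq_neg_of_add_eq_zero_left this]
      · rw [hr_sup i hi]
        simp
    rw [e2]
    apply norm_sum_conj_le r
    · intro i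
      exact (norm_le_pi_norm r i).trans hr_norm
    · intro i
      rw [norm_neg, norm_dI]
      exact mul_le_mul R.hd ((norm_le_pi_norm (v - z) i).trans hv0) (norm_nonneg _)
        (by positivity)
  have e3 : hh c (act s w v) = hh c v + (hh c (act s w z) - hh c z) + 2 * (ip c r (v - z)).re := by
    have a1 : hh c v = hh c (v - z) + 2 * (ip c z (v - z)).re + hh c z := by
      rw [← hh_add]
      congr 1
      abel
    have a2 : hh c (act s w v) = hh c (v - z) + 2 * (ip c (act s w z) (v - z)).re +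
        hh c (act s w z) := by
      rw [← hh_add, e1]
      congr 1
      abel
    have a3 : ip c (act s w z) (v - z) = ip c r (v - z) + ip c z (v - z) := by
      rw [← ip_add_left, ← hrz]
    rw [a1, a2, a3, Complex.add_re]
    ring
  have h6 := Complex.re_le_norm (ip c r (v - z))
  have h7 := R.ge hl z
  have h8 : 2 * (ip c r (v - z)).re ≤ 4 * n * Q * D * (1 + C) * x * |y| * ‖z‖ * ‖v‖ := by
    calc 2 * (ip c r (v - z)).re ≤
        2 * (n * (2 * Q * ‖z‖ * (D * x * |y| * ((1 + C) * ‖v‖)))) := by linarith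
      _ = 4 * n * Q * D * (1 + C) * x * |y| * ‖z‖ * ‖v‖ := by ring
  have h11 : de * x * (lam * ‖z‖ ^ 2) ≤ de * x * hh c z :=
    mul_le_mul_of_nonneg_left h7 (by positivity)
  rw [e3]
  linarith

end

/-- the conclusions for one run -/
def FlatEst (n : ℕ) (Phi th de K : ℝ) : Prop :=
  ∀ x y : ℝ, 0 < x → x ≤ Phi → |y| ≤ th → ∀ w : List ℕ, (∀ k ∈ w, k + 2 ≤ n) →
    ∀ (c : ℕ → ℂ) (M : ℝ), (∀ j ≤ n, ‖c j‖ ≤ M) → ∃ (p : ℕ → ℂ) (e : ℝ), 0 ≤ e ∧
      (∀ j ≤ n, ‖c j - p j‖ ≤ K * e) ∧ (∀ j ≤ n, ‖Ev (ss x y) w c j - p j‖ ≤ K * e) ∧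
      (∀ k ∈ w, p k + p (k + 2) = 2 * Complex.cosh ((x : ℂ) + y * Complex.I) * p (k + 1)) ∧
      (∀ j ≤ n, ‖p j‖ ≤ K * M) ∧ e ≤ K * M ∧
      de * x * e ^ 2 - K * x * |y| * e * M ≤ ∑ j ∈ Finset.range n,
        (En x y (c j) (c (j + 1)) - En x y (Ev (ss x y) w c j) (Ev (ss x y) w c (j + 1)))

theorem FlatEst.mono {n : ℕ} {Phi th de K th' de' K' : ℝ} (h : FlatEst n Phi th de K)
    (hth : th' ≤ th) (hde : de' ≤ de) (hK : K ≤ K') : FlatEst n Phi th' de' K' := by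
  intro x y hx hxP hy w hw c M hM
  have hM0 : 0 ≤ M := (norm_nonneg _).trans (hM 0 (Nat.zero_le _))
  obtain ⟨p, e, he, h1, h2, h3, h4, h5, h6⟩ := h x y hx hxP (hy.trans hth) w hw c M hM
  have e1 : K * e ≤ K' * e := mul_le_mul_of_nonneg_right hK he
  have e2 : K * M ≤ K' * M := mul_le_mul_of_nonneg_right hK hM0
  refine ⟨p, e, he, fun j hj => (h1 j hj).trans e1, fun j hj => (h2 j hj).trans e1, h3,
    fun j hj => (h4 j hj).trans e2, h5.trans e2, le_trans ?_ h6⟩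
  have e3 : de' * (x * e ^ 2) ≤ de * (x * e ^ 2) := mul_le_mul_of_nonneg_right hde (by positivity)
  have e4 : K * (x * |y| * e * M) ≤ K' * (x * |y| * e * M) :=
    mul_le_mul_of_nonneg_right hK (by positivity)
  linarith

theorem flatEst_one (k : ℕ) {Phi : ℝ} (hPhi : 0 ≤ Phi) :
    ∃ th > 0, ∃ de > 0, ∃ K > 0, FlatEst k Phi th de K := by
  have hk := kap_lt (k + 1)
  obtain ⟨c1, hc1⟩ : ∃ c1, c1 = Real.exp (-Phi) / (1 + 2 * Phi) := ⟨_, rfl⟩
  have hc1pos : 0 < c1 := by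
    rw [hc1]
    have := Real.exp_pos (-Phi)
    positivity
  have hEp := Real.exp_pos Phi
  obtain ⟨Lam, hLam⟩ : ∃ Lam, Lam = (((k + 1 : ℕ) : ℝ) + 1) * (Real.exp Phi + ((k + 1 : ℕ) : ℝ)) :=
    ⟨_, rfl⟩
  obtain ⟨lam, hlam⟩ : ∃ lam, lam = (1 - Real.cos (Real.pi / (((k + 1 : ℕ) : ℝ) + 1))) / 2 :=
    ⟨_, rfl⟩
  obtain ⟨D, hD⟩ : ∃ D, D = Real.exp Phi * (1 + Phi) := ⟨_, rfl⟩
  obtain ⟨K0, hK0⟩ : ∃ K0, K0 = 36 * Real.exp Phi ^ 2 / c1 + 4 * Real.exp Phi ^ 2 * Phi := ⟨_, rfl⟩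
  have hl : 0 < lam := by rw [hlam]; linarith
  have hL : 0 < Lam := by rw [hLam]; positivity
  have hD0 : 0 ≤ D := by rw [hD]; positivity
  obtain ⟨de, hde, th, hth, H⟩ := main (k + 1) (Lam := Lam) (lam := lam) (c1 := c1)
    (K := K0) (D := D) hl hL hD0 hc1pos (by rw [hK0]; positivity) (k + 1)
  obtain ⟨Q, hQ⟩ : ∃ Q, Q = Lam / lam + 1 := ⟨_, rfl⟩
  have hQ1 : 1 ≤ Q := by
    rw [hQ]
    have : 0 < Lam / lam := by positivity
    linarith
  have hQ2 : Lam ≤ lam * Q ^ 2 := by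
    have h1 : Lam = lam * (Q - 1) := by
      rw [hQ]
      field_simp
      ring
    rw [h1]
    apply mul_le_mul_of_nonneg_left _ hl.le
    nlinarith
  obtain ⟨Cc, hCc⟩ : ∃ Cc, Cc = ((k + 1 : ℕ) : ℝ) * (Lam + D) / lam := ⟨_, rfl⟩
  have hCc0 : 0 ≤ Cc := by rw [hCc]; positivity
  obtain ⟨K1, hK1⟩ : ∃ K1, K1 = 4 * ((k + 1 : ℕ) : ℝ) * Q * D * (1 + Cc) := ⟨_, rfl⟩
  have hQ0 : 0 ≤ Q := by linarith
  have hK1' : 0 ≤ K1 := by rw [hK1]; positivity
  obtain ⟨Kb, hKb⟩ : ∃ Kb, Kb = 1 + Q + Cc + K1 := ⟨_, rfl⟩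
  have k0 : 1 ≤ Kb := by rw [hKb]; linarith
  have k1 : Q ≤ Kb := by rw [hKb]; linarith
  have k2 : 1 + Cc ≤ Kb := by rw [hKb]; linarith
  have k3 : K1 ≤ Kb := by rw [hKb]; linarith
  refine ⟨min th (min 1 (1 - Real.cos (Real.pi / (((k + 1 : ℕ) : ℝ) + 1)))),
    lt_min hth (lt_min one_pos (by linarith)), de * lam, by positivity,
    Kb, by linarith, ?_⟩
  intro x y hx hxP hy w hw c M hM
  have hM0 : 0 ≤ M := (norm_nonneg _).trans (hM 0 (Nat.zero_le _))
  have hv := norm_gv_le hM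
  have y1 : |y| ≤ th := hy.trans (min_le_left _ _)
  have y2 : |y| ≤ 1 := hy.trans ((min_le_right _ _).trans (min_le_left _ _))
  have y3 : |y| ≤ 1 - Real.cos (Real.pi / (((k + 1 : ℕ) : ℝ) + 1)) :=
    hy.trans ((min_le_right _ _).trans (min_le_right _ _))
  have R := reg (k + 1) Phi hPhi hx hxP y2 y3
  rw [← hc1, ← hLam, ← hlam, ← hK0, ← hD] at R
  obtain ⟨w', hw1, hw2⟩ := gv_frun (k := k) (ss_sq x y) w
    (fun a ha => by have := hw a ha; omega)
  have hcon := H x y _ _ _ R y1 w'.toFinset (by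
    refine (Finset.card_le_univ _).trans ?_
    simp)
  obtain ⟨z, hz1, hz2, hz3, hz4⟩ := part' R hl hL.le hD0 hQ1 hQ2 (le_of_eq hCc.symm) hde hcon
    (gv k c)
  obtain ⟨h1, h2, h3⟩ := hz4 w' (fun a => by simp)
  rw [← hw2 c] at h1 h3
  rw [← hK1] at h3
  have hZ0 := norm_nonneg z
  have hzM : ‖z‖ ≤ Cc * M := hz3.trans (mul_le_mul_of_nonneg_left hv hCc0)
  -- the stationary vector
  obtain ⟨p, hp⟩ : ∃ p : ℕ → ℂ, ∀ i : Fin (k + 1), p i = (gv k c - z) i := by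
    refine ⟨fun i => if h : i < k + 1 then (gv k c - z) ⟨i, h⟩ else 0, fun i => ?_⟩
    change (if h : (i : ℕ) < k + 1 then (gv k c - z) ⟨i, h⟩ else 0) = _
    rw [dif_pos i.2]
  have hgp : gv k p = gv k c - z := by
    ext i
    exact hp i
  refine ⟨p, ‖z‖, hZ0, ?_, ?_, ?_, ?_, ?_, ?_⟩
  · intro j hj
    have e1 : c j - p j = z (⟨j, by omega⟩ : Fin (k + 1)) := by
      have e2 := hp (⟨j, by omega⟩ : Fin (k + 1))
      have e3 : p ((⟨j, by omega⟩ : Fin (k + 1)) : ℕ) = p j := rfl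
      rw [e3] at e2
      rw [e2]
      have e4 : gv k c (⟨j, by omega⟩ : Fin (k + 1)) = c j := rfl
      rw [Pi.sub_apply, e4]
      ring
    rw [e1]
    have e5 := norm_le_pi_norm z (⟨j, by omega⟩ : Fin (k + 1))
    nlinarith
  · intro j hj
    rw [Ev_eq]
    have e1 : frun (ss x y) w c j - p j = (act (ss x y) w' z) (⟨j, by omega⟩ : Fin (k + 1)) := by
      have e2 := congrFun h1 (⟨j, by omega⟩ : Fin (k + 1))
      have e3 : gv k (frun (ss x y) w c) (⟨j, by omega⟩ : Fin (k + 1)) =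
        frun (ss x y) w c j := rfl
      have e4 : p j = (gv k c - z) (⟨j, by omega⟩ : Fin (k + 1)) :=
        hp (⟨j, by omega⟩ : Fin (k + 1))
      rw [e3] at e2
      rw [e2, e4, Pi.add_apply]
      ring
    rw [e1]
    have e5 := norm_le_pi_norm (act (ss x y) w' z) (⟨j, by omega⟩ : Fin (k + 1))
    have e6 := mul_le_mul_of_nonneg_right k1 hZ0
    linarith
  · intro a ha
    have ha' := hw a ha
    have ha'' : a + 1 < k := by omega
    have hmem : (⟨a + 1, by omega⟩ : Fin (k + 1)) ∈ w'.toFinset := by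
      rw [List.mem_toFinset, hw1]
      exact ⟨a, ha, rfl⟩
    have e1 := hz2 _ hmem
    rw [← hgp, ell_gv ha'' (ss_sq x y), ← two_cosh, sub_eq_zero] at e1
    have h0 := ss_ne_zero x y
    apply mul_left_cancel₀ h0
    rw [← e1]
    ring
  · intro j hj
    have e4 : p j = (gv k c - z) (⟨j, by omega⟩ : Fin (k + 1)) :=
      hp (⟨j, by omega⟩ : Fin (k + 1))
    rw [e4]
    have e5 := norm_le_pi_norm (gv k c - z) (⟨j, by omega⟩ : Fin (k + 1))
    have e6 := norm_sub_le (gv k c) z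
    have e7 := mul_le_mul_of_nonneg_right k2 hM0
    linarith
  · have e7 := mul_le_mul_of_nonneg_right k2 hM0
    linarith
  · rw [Ev_eq]
    have h7 := fl_frun (k := k) (Real.cosh x * Real.cos y) 1 (fun _ => 1) (ss x y) w
      (fun a ha => ⟨by have := hw a ha; omega, rfl, rfl⟩) c
    have h8 : ∑ j ∈ Finset.range k, (En x y (c j) (c (j + 1)) -
        En x y (frun (ss x y) w c j) (frun (ss x y) w c (j + 1))) =
        fl (Real.cosh x * Real.cos y) k (fun _ => 1) c -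
          fl (Real.cosh x * Real.cos y) k (fun _ => 1) (frun (ss x y) w c) := by
      unfold fl
      rw [← Finset.sum_sub_distrib]
      refine Finset.sum_congr rfl fun i _ => ?_
      unfold En ee
      ring
    rw [h8]
    have e1 : K1 * (x * |y| * ‖z‖ * ‖gv k c‖) ≤ Kb * (x * |y| * ‖z‖ * M) := by
      have : x * |y| * ‖z‖ * ‖gv k c‖ ≤ x * |y| * ‖z‖ * M :=
        mul_le_mul_of_nonneg_left hv (by positivity)
      exact mul_le_mul k3 this (by positivity) (by linarith)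
    linarith

/-- **the run lemma, flat form** -/
theorem run_lemma (B : ℕ) (Phi : ℝ) (hPhi : 0 < Phi) : ∃ th > 0, ∃ de > 0, ∃ K > 0, ∀ x y : ℝ,
    0 < x → x ≤ Phi → |y| ≤ th → ∀ n ≤ B, ∀ w : List ℕ, (∀ k ∈ w, k + 2 ≤ n) →
    ∀ (c : ℕ → ℂ) (M : ℝ), (∀ j ≤ n, ‖c j‖ ≤ M) → ∃ (p : ℕ → ℂ) (e : ℝ), 0 ≤ e ∧
      (∀ j ≤ n, ‖c j - p j‖ ≤ K * e) ∧ (∀ j ≤ n, ‖Ev (ss x y) w c j - p j‖ ≤ K * e) ∧
      (∀ k ∈ w, p k + p (k + 2) = 2 * Complex.cosh ((x : ℂ) + y * Complex.I) * p (k + 1)) ∧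
      (∀ j ≤ n, ‖p j‖ ≤ K * M) ∧ e ≤ K * M ∧
      de * x * e ^ 2 - K * x * |y| * e * M ≤ ∑ j ∈ Finset.range n,
        (En x y (c j) (c (j + 1)) - En x y (Ev (ss x y) w c j) (Ev (ss x y) w c (j + 1))) := by
  have main : ∃ th > 0, ∃ de > 0, ∃ K > 0, ∀ n ≤ B, FlatEst n Phi th de K := by
    induction B with
    | zero =>
      obtain ⟨th, hth, de, hde, K, hK, H⟩ := flatEst_one 0 hPhi.le
      exact ⟨th, hth, de, hde, K, hK, fun n hn => by rwa [Nat.le_zero.1 hn]⟩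
    | succ B ih =>
      obtain ⟨th, hth, de, hde, K, hK, H⟩ := ih
      obtain ⟨th', hth', de', hde', K', hK', H'⟩ := flatEst_one (B + 1) hPhi.le
      refine ⟨min th th', lt_min hth hth', min de de', lt_min hde hde', max K K',
        lt_of_lt_of_le hK (le_max_left _ _), fun n hn => ?_⟩
      rcases Nat.lt_or_ge n (B + 1) with h | h
      · exact (H n (by omega)).mono (min_le_left _ _) (min_le_left _ _) (le_max_left _ _)
      · have : n = B + 1 := by omega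
        subst this
        exact H'.mono (min_le_right _ _) (min_le_right _ _) (le_max_right _ _)
  obtain ⟨th, hth, de, hde, K, hK, H⟩ := main
  exact ⟨th, hth, de, hde, K, hK, fun x y hx hxP hy n hn w hw c M hM =>
    H n hn x y hx hxP hy w hw c M hM⟩

end Pool.Agent.Helper78.EV2
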