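import Pool.Agent.Helper78.EV2.Net

/-!
# The network theorem
-/

set_option autoImplicit false

namespace Pool.Agent.Helper78.EV2

open Matrix Pool.Agent.Helper99.ZB Pool.Agent.Helper78.EV

/-- both gaps next to the strand `p.2` of the slice `p.1` are at most `D` -/
def Gd (c : ℕ → ℕ → ℂ) (p : ℕ × ℕ) (D : ℝ) : Prop := ‖c p.1 p.2‖ ≤ D ∧ ‖c p.1 (p.2 + 1)‖ ≤ D

/-- the strands -/
def Str (R N : ℕ) (k : ℕ → ℕ) : Finset (ℕ × ℕ) :=
  ((Finset.range (R + 1)) ×ˢ (Finset.range N)).filter (fun p => p.2 < k p.1)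

theorem mem_Str {R N : ℕ} {k : ℕ → ℕ} (hk : ∀ r ≤ R, k r ≤ N) {p : ℕ × ℕ} :
    p ∈ Str R N k ↔ p.1 ≤ R ∧ p.2 < k p.1 := by
  unfold Str
  rw [Finset.mem_filter, Finset.mem_product, Finset.mem_range, Finset.mem_range]
  constructor
  · rintro ⟨⟨h1, h2⟩, h3⟩
    exact ⟨by omega, h3⟩
  · rintro ⟨h1, h2⟩
    have := hk _ h1
    exact ⟨⟨by omega, by omega⟩, h2⟩

/-- the hypotheses on a closed network with defects -/
structure Nt (N : ℕ) (s : ℂ) (F : ℝ) (R : ℕ) (k : ℕ → ℕ) (σ : ℕ → ℕ → ℝ) (c : ℕ → ℕ → ℂ)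
    (ev : ℕ → MEv) : Prop where
  hR : R ≤ N
  hk : ∀ r ≤ R, k r ≤ N
  k0 : k 0 = 0
  kR : k R = 0
  hσ : ∀ r ≤ R, ∀ i < k r, σ r i = 1 ∨ σ r i = -1
  ok : ∀ r < R, Ok s F (k r) (k (r + 1)) (σ r) (σ (r + 1)) (c r) (c (r + 1)) (ev r)

section

variable {N R : ℕ} {s : ℂ} {F : ℝ} {k : ℕ → ℕ} {σ : ℕ → ℕ → ℝ} {c : ℕ → ℕ → ℂ} {ev : ℕ → MEv}

theorem Nt.mem (h : Nt N s F R k σ c ev) {a b : ℕ × ℕ} (hab : Lk R k ev a b) :
    a ∈ Str R N k ∧ b ∈ Str R N k := by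
  rw [mem_Str h.hk, mem_Str h.hk]
  cases hab with
  | @dn r i w hr he hi =>
    have := h.ok r hr
    rw [he] at this
    have hk := this.hk
    exact ⟨⟨by simp; omega, hi⟩, ⟨by simp; omega, by simp; omega⟩⟩
  | @dnl r a w hr he ha =>
    have := h.ok r hr
    rw [he] at this
    have hk := (this.hw a ha).1
    exact ⟨⟨by simp; omega, by simp; omega⟩, ⟨by simp; omega, by simp; omega⟩⟩
  | @up r i w hr he hi =>
    have := h.ok r hr
    rw [he] at this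
    have hk := this.hk
    exact ⟨⟨by simp; omega, hi⟩, ⟨by simp; omega, by simp; omega⟩⟩
  | @upl r a w hr he ha =>
    have := h.ok r hr
    rw [he] at this
    have hk := (this.hw a ha).1
    have hk2 := this.hk
    exact ⟨⟨by simp; omega, by simp; omega⟩, ⟨by simp; omega, by simp; omega⟩⟩
  | @mxl r i j hr he hi =>
    have := h.ok r hr
    rw [he] at this
    have h1 := this.hk
    have h2 := this.hj
    exact ⟨⟨by simp; omega, by simp; omega⟩, ⟨by simp; omega, by simp; omega⟩⟩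
  | @mxr r i j hr he hi hi2 =>
    have := h.ok r hr
    rw [he] at this
    have h1 := this.hk
    have h2 := this.hj
    exact ⟨⟨by simp; omega, by simp; omega⟩, ⟨by simp; omega, by simp; omega⟩⟩
  | @mxc r j hr he =>
    have := h.ok r hr
    rw [he] at this
    have h1 := this.hk
    have h2 := this.hj
    exact ⟨⟨by simp; omega, by simp; omega⟩, ⟨by simp; omega, by simp; omega⟩⟩
  | @mnl r i j hr he hi =>
    have := h.ok r hr
    rw [he] at this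
    have h1 := this.hk
    have h2 := this.hj
    exact ⟨⟨by simp; omega, by simp; omega⟩, ⟨by simp; omega, by simp; omega⟩⟩
  | @mnr r i j hr he hi hi2 =>
    have := h.ok r hr
    rw [he] at this
    have h1 := this.hk
    have h2 := this.hj
    exact ⟨⟨by simp; omega, by simp; omega⟩, ⟨by simp; omega, by simp; omega⟩⟩
  | @mnc r j hr he =>
    have := h.ok r hr
    rw [he] at this
    have h1 := this.hk
    have h2 := this.hj
    exact ⟨⟨by simp; omega, by simp; omega⟩, ⟨by simp; omega, by simp; omega⟩⟩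

end

theorem le_of_defect {u v : ℂ} {D F : ℝ} (h1 : ‖u‖ ≤ D) (h2 : ‖v - u‖ ≤ F) : ‖v‖ ≤ D + F := by
  have e : v = u + (v - u) := by ring
  rw [e]
  exact (norm_add_le _ _).trans (add_le_add h1 h2)

/-- solving the letter relation for a side gap -/
theorem side_le {s : ℂ} {Phi D Q : ℝ} (hs : ‖s‖ ≤ 1) (hs0 : s ≠ 0) (hsi : ‖s⁻¹‖ ≤ Real.exp Phi)
    {u v w : ℂ} (hu : ‖u‖ ≤ D) (hv : ‖v‖ ≤ D)
    (h : ‖(1 + s ^ 2) * v - s * (u + w)‖ ≤ Q) : ‖w‖ ≤ Real.exp Phi * (3 * D + Q) := by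
  have hD : 0 ≤ D := (norm_nonneg _).trans hu
  have hQ : 0 ≤ Q := (norm_nonneg _).trans h
  have e : w = s⁻¹ * ((1 + s ^ 2) * v - s * u - ((1 + s ^ 2) * v - s * (u + w))) := by
    field_simp
    ring
  rw [e, norm_mul]
  refine mul_le_mul hsi ?_ (norm_nonneg _) (Real.exp_pos _).le
  refine (norm_sub_le _ _).trans ?_
  have b1 : ‖1 + s ^ 2‖ ≤ 2 := by
    refine (norm_add_le _ _).trans ?_
    rw [norm_one, norm_pow]
    have := pow_le_one₀ (n := 2) (norm_nonneg _) hs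
    linarith
  have b2 : ‖(1 + s ^ 2) * v‖ ≤ 2 * D := by
    rw [norm_mul]
    exact mul_le_mul b1 hv (norm_nonneg _) (by norm_num)
  have b3 : ‖s * u‖ ≤ 1 * D := by
    rw [norm_mul]
    exact mul_le_mul hs hu (norm_nonneg _) (by norm_num)
  have b4 := norm_sub_le ((1 + s ^ 2) * v) (s * u)
  linarith

/-- the data of all events -/
theorem Nt.data {N R : ℕ} {F : ℝ} {k : ℕ → ℕ} {σ : ℕ → ℕ → ℝ} {c : ℕ → ℕ → ℂ} {ev : ℕ → MEv}
    {Phi th ka K : ℝ} (hka : 0 < ka) (hK : 1 ≤ K)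
    (H : ∀ k ≤ N, RunEst k Phi th ka K)
    {x y : ℝ} (hx : 0 < x) (hxP : x ≤ Phi) (hy : |y| ≤ th) (hC : 0 ≤ Real.cosh x * Real.cos y)
    (hF : 0 ≤ F) (h : Nt N (ss x y) F R k σ c ev) :
    ∃ Z : ℕ → ℝ, ∀ r < R, 0 ≤ Z r ∧
      (∀ w, ev r = .dn w ∨ ev r = .up w → k (r + 1) = k r ∧
        (∀ i ≤ k r, ‖c (r + 1) i - c r i‖ ≤ K * Z r + F) ∧
        ∀ a ∈ w, a + 1 < k r ∧
          ‖(1 + ss x y ^ 2) * c r (a + 1) - ss x y * (c r a + c r (a + 2))‖ ≤ K * Z r + 4 * F) ∧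
      ∀ V : ℝ, Bdd (k r) (c r) V → Bdd (k (r + 1)) (c (r + 1)) V → 0 ≤ V →
        ka * x * Z r ^ 2 - K * x * y ^ 2 * V ^ 2 -
          (N + 2) * (2 * (Real.cosh x * Real.cos y + 1) * (V + F) * F) ≤
        fl (Real.cosh x * Real.cos y) (k r) (σ r) (c r) -
          fl (Real.cosh x * Real.cos y) (k (r + 1)) (σ (r + 1)) (c (r + 1)) := by
  have : ∀ r : ℕ, ∃ Zr : ℝ, r < R → 0 ≤ Zr ∧
      (∀ w, ev r = .dn w ∨ ev r = .up w → k (r + 1) = k r ∧
        (∀ i ≤ k r, ‖c (r + 1) i - c r i‖ ≤ K * Zr + F) ∧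
        ∀ a ∈ w, a + 1 < k r ∧
          ‖(1 + ss x y ^ 2) * c r (a + 1) - ss x y * (c r a + c r (a + 2))‖ ≤ K * Zr + 4 * F) ∧
      ∀ V : ℝ, Bdd (k r) (c r) V → Bdd (k (r + 1)) (c (r + 1)) V → 0 ≤ V →
        ka * x * Zr ^ 2 - K * x * y ^ 2 * V ^ 2 -
          (N + 2) * (2 * (Real.cosh x * Real.cos y + 1) * (V + F) * F) ≤
        fl (Real.cosh x * Real.cos y) (k r) (σ r) (c r) -
          fl (Real.cosh x * Real.cos y) (k (r + 1)) (σ (r + 1)) (c (r + 1)) := by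
    intro r
    by_cases hr : r < R
    · obtain ⟨Z, h1, h2, h3⟩ := Ok.est hka hK H hx hxP hy hC hF (h.hk r hr.le) (h.hk (r + 1) hr)
        (h.hσ r hr.le) (h.hσ (r + 1) hr) (h.ok r hr)
      exact ⟨Z, fun _ => ⟨h1, h2, h3⟩⟩
    · exact ⟨0, fun h' => absurd h' hr⟩
  choose Z hZ using this
  exact ⟨Z, fun r hr => hZ r hr⟩

/-- a bound spreads along one link -/
theorem Nt.link {N R : ℕ} {F : ℝ} {k : ℕ → ℕ} {σ : ℕ → ℕ → ℝ} {c : ℕ → ℕ → ℂ} {ev : ℕ → MEv}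
    {Phi K : ℝ} (hPhi : 0 ≤ Phi) (hK : 1 ≤ K) {x y : ℝ} (hx : 0 < x) (hxP : x ≤ Phi)
    (hF : 0 ≤ F) (h : Nt N (ss x y) F R k σ c ev) {Z : ℕ → ℝ} {Zm : ℝ}
    (hZ : ∀ r < R, 0 ≤ Z r ∧
      (∀ w, ev r = .dn w ∨ ev r = .up w → k (r + 1) = k r ∧
        (∀ i ≤ k r, ‖c (r + 1) i - c r i‖ ≤ K * Z r + F) ∧
        ∀ a ∈ w, a + 1 < k r ∧
          ‖(1 + ss x y ^ 2) * c r (a + 1) - ss x y * (c r a + c r (a + 2))‖ ≤ K * Z r + 4 * F))
    (hZm : ∀ r < R, Z r ≤ Zm) (hZm0 : 0 ≤ Zm) {a b : ℕ × ℕ} (hab : Lk R k ev a b) (D : ℝ) (hD : 0 ≤ D) :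
    (Gd c a D → Gd c b (Real.exp Phi * (K + 4) * (D + (Zm + F)))) ∧
      (Gd c b D → Gd c a (Real.exp Phi * (K + 4) * (D + (Zm + F)))) := by
  have hE : 1 ≤ Real.exp Phi := Real.one_le_exp hPhi
  have hsn : ‖ss x y‖ ≤ 1 := by
    rw [norm_ss]
    exact Real.exp_le_one_iff.2 (by linarith)
  have hs0 := ss_ne_zero x y
  have hsi : ‖(ss x y)⁻¹‖ ≤ Real.exp Phi := by
    rw [norm_inv, norm_ss, ← Real.exp_neg, neg_neg]
    exact Real.exp_le_exp.2 hxP
  obtain ⟨A, hA⟩ : ∃ A, A = Real.exp Phi * (K + 4) * (D + (Zm + F)) := ⟨_, rfl⟩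
  -- the two bounds
  have hbig : Real.exp Phi * (3 * D + (K * Zm + 4 * F)) ≤ A := by
    rw [hA, mul_assoc]
    apply mul_le_mul_of_nonneg_left _ (Real.exp_pos _).le
    have h1 : 0 ≤ K * D := by positivity
    have h2 : 0 ≤ K * F := by positivity
    linarith
  have hmid : 3 * D + (K * Zm + 4 * F) ≤ A := by
    refine le_trans ?_ hbig
    have : 0 ≤ 3 * D + (K * Zm + 4 * F) := by positivity
    nlinarith
  have hsmall : D + (K * Zm + F) ≤ A := by linarith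
  have hsmall2 : D + F ≤ A := by
    have : 0 ≤ K * Zm := by positivity
    linarith
  have hD2 : D + (F + F) ≤ A := by
    have : 0 ≤ K * Zm := by positivity
    linarith
  have hDA : D ≤ A := by linarith
  rw [← hA]
  -- the common parts
  have run : ∀ r i : ℕ, ∀ w : List ℕ, r < R → (ev r = .dn w ∨ ev r = .up w) → i < k r →
      (Gd c (r, i) D → Gd c (r + 1, i) A) ∧ (Gd c (r + 1, i) D → Gd c (r, i) A) := by
    intro r i w hr he hi
    obtain ⟨h1, h2, _⟩ := (hZ r hr).2 w he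
    have hz := hZm r hr
    have hKz : K * Z r ≤ K * Zm := mul_le_mul_of_nonneg_left hz (by linarith)
    have a1 := h2 i hi.le
    have a2 := h2 (i + 1) hi
    constructor
    · rintro ⟨b1, b2⟩
      exact ⟨(le_of_defect b1 a1).trans (by linarith), (le_of_defect b2 a2).trans (by linarith)⟩
    · rintro ⟨b1, b2⟩
      rw [norm_sub_rev] at a1 a2
      exact ⟨(le_of_defect b1 a1).trans (by linarith), (le_of_defect b2 a2).trans (by linarith)⟩
  have letter : ∀ r a : ℕ, ∀ w : List ℕ, r < R → (ev r = .dn w ∨ ev r = .up w) → a ∈ w →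
      (Gd c (r, a) D → Gd c (r, a + 1) A) ∧ (Gd c (r, a + 1) D → Gd c (r, a) A) := by
    intro r a w hr he ha
    obtain ⟨_, _, h3⟩ := (hZ r hr).2 w he
    have hz := hZm r hr
    have hKz : K * Z r ≤ K * Zm := mul_le_mul_of_nonneg_left hz (by linarith)
    have a1 := (h3 a ha).2
    have a2 : ‖(1 + ss x y ^ 2) * c r (a + 1) - ss x y * (c r (a + 2) + c r a)‖ ≤
        K * Z r + 4 * F := by
      rw [add_comm (c r (a + 2))]
      exact a1
    have mono : ∀ q : ℂ, ‖q‖ ≤ Real.exp Phi * (3 * D + (K * Z r + 4 * F)) → ‖q‖ ≤ A := by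
      intro q hq
      refine hq.trans (le_trans ?_ hbig)
      exact mul_le_mul_of_nonneg_left (by linarith) (Real.exp_pos _).le
    constructor
    · rintro ⟨b1, b2⟩
      exact ⟨b2.trans hDA, mono _ (side_le hsn hs0 hsi b1 b2 a1)⟩
    · rintro ⟨b1, b2⟩
      exact ⟨mono _ (side_le hsn hs0 hsi b2 b1 a2), b1.trans hDA⟩
  have turnl : ∀ (j k k' : ℕ) (σ σ' : ℕ → ℝ) (c c' : ℕ → ℂ), Turn F j k k' σ σ' c c' →
      ∀ i < j, (‖c i‖ ≤ D ∧ ‖c (i + 1)‖ ≤ D → ‖c' i‖ ≤ A ∧ ‖c' (i + 1)‖ ≤ A) ∧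
        (‖c' i‖ ≤ D ∧ ‖c' (i + 1)‖ ≤ D → ‖c i‖ ≤ A ∧ ‖c (i + 1)‖ ≤ A) := by
    intro j k k' σ σ' c c' hT i hi
    have a1 := hT.cl i hi.le
    have a2 := hT.cl (i + 1) hi
    constructor
    · rintro ⟨b1, b2⟩
      exact ⟨(le_of_defect b1 a1).trans hsmall2, (le_of_defect b2 a2).trans hsmall2⟩
    · rintro ⟨b1, b2⟩
      rw [norm_sub_rev] at a1 a2
      exact ⟨(le_of_defect b1 a1).trans hsmall2, (le_of_defect b2 a2).trans hsmall2⟩
  have turnr : ∀ (j k k' : ℕ) (σ σ' : ℕ → ℝ) (c c' : ℕ → ℂ), Turn F j k k' σ σ' c c' →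
      ∀ i, j ≤ i → i < k →
        (‖c i‖ ≤ D ∧ ‖c (i + 1)‖ ≤ D → ‖c' (i + 2)‖ ≤ A ∧ ‖c' (i + 2 + 1)‖ ≤ A) ∧
        (‖c' (i + 2)‖ ≤ D ∧ ‖c' (i + 2 + 1)‖ ≤ D → ‖c i‖ ≤ A ∧ ‖c (i + 1)‖ ≤ A) := by
    intro j k k' σ σ' c c' hT i hi hi2
    have a1 := hT.cr i hi hi2.le
    have a2 := hT.cr (i + 1) (by omega) hi2
    have e : i + 1 + 2 = i + 2 + 1 := by ring
    rw [e] at a2
    constructor
    · rintro ⟨b1, b2⟩
      exact ⟨(le_of_defect b1 a1).trans hsmall2, (le_of_defect b2 a2).trans hsmall2⟩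
    · rintro ⟨b1, b2⟩
      rw [norm_sub_rev] at a1 a2
      exact ⟨(le_of_defect b1 a1).trans hsmall2, (le_of_defect b2 a2).trans hsmall2⟩
  have turnc : ∀ (j k k' : ℕ) (σ σ' : ℕ → ℝ) (c c' : ℕ → ℂ), Turn F j k k' σ σ' c c' →
      (‖c' j‖ ≤ D ∧ ‖c' (j + 1)‖ ≤ D → ‖c' (j + 1)‖ ≤ A ∧ ‖c' (j + 1 + 1)‖ ≤ A) ∧
        (‖c' (j + 1)‖ ≤ D ∧ ‖c' (j + 1 + 1)‖ ≤ D → ‖c' j‖ ≤ A ∧ ‖c' (j + 1)‖ ≤ A) := by
    intro j k k' σ σ' c c' hT
    have a1 := hT.cl j le_rfl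
    have a2 := hT.cr j le_rfl hT.hj
    have a3 : ‖c' (j + 1 + 1) - c' j‖ ≤ F + F := by
      have e : c' (j + 1 + 1) - c' j = (c' (j + 2) - c j) - (c' j - c j) := by
        have : j + 1 + 1 = j + 2 := by ring
        rw [this]
        ring
      rw [e]
      exact (norm_sub_le _ _).trans (add_le_add a2 a1)
    constructor
    · rintro ⟨b1, b2⟩
      exact ⟨b2.trans hDA, (le_of_defect b1 a3).trans hD2⟩
    · rintro ⟨b1, b2⟩
      rw [norm_sub_rev] at a3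
      exact ⟨(le_of_defect b2 a3).trans hD2, b1.trans hDA⟩
  cases hab with
  | @dn r i w hr he hi => exact run r i w hr (Or.inl he) hi
  | @dnl r a w hr he ha => exact letter r a w hr (Or.inl he) ha
  | @up r i w hr he hi => exact run r i w hr (Or.inr he) hi
  | @upl r a w hr he ha => exact letter r a w hr (Or.inr he) ha
  | @mxl r i j hr he hi =>
    have := h.ok r hr
    rw [he] at this
    exact turnl _ _ _ _ _ _ _ this i hi
  | @mxr r i j hr he hi hi2 =>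
    have := h.ok r hr
    rw [he] at this
    exact turnr _ _ _ _ _ _ _ this i hi hi2
  | @mxc r j hr he =>
    have := h.ok r hr
    rw [he] at this
    exact turnc _ _ _ _ _ _ _ this
  | @mnl r i j hr he hi =>
    have := h.ok r hr
    rw [he] at this
    have h2 := turnl _ _ _ _ _ _ _ this i hi
    exact ⟨h2.2, h2.1⟩
  | @mnr r i j hr he hi hi2 =>
    have := h.ok r hr
    rw [he] at this
    have h2 := turnr _ _ _ _ _ _ _ this i hi hi2
    exact ⟨h2.2, h2.1⟩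
  | @mnc r j hr he =>
    have := h.ok r hr
    rw [he] at this
    exact turnc _ _ _ _ _ _ _ this

/-- the telescope -/
theorem tele (f : ℕ → ℝ) (R : ℕ) : ∑ r ∈ Finset.range R, (f r - f (r + 1)) = f 0 - f R := by
  induction R with
  | zero => simp
  | succ R ih =>
    rw [Finset.sum_range_succ, ih]
    ring

/-- the final quadratic inequality -/
theorem quad {x V F A G Phi : ℝ} (hx : 0 < x) (hxP : x ≤ Phi) (hV : 0 ≤ V) (hF : 0 ≤ F)
    (hA : 0 ≤ A) (hG : 0 ≤ G) (h : x * V ^ 2 ≤ A * (V * F + F ^ 2) + G * x * F ^ 2) :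
    V ≤ (A + (A * Phi + G * Phi ^ 2) + 1) / x * F := by
  have hP : 0 < Phi := hx.trans_le hxP
  obtain ⟨X, hX⟩ : ∃ X, X = x * V := ⟨_, rfl⟩
  obtain ⟨B, hB⟩ : ∃ B, B = A * Phi + G * Phi ^ 2 := ⟨_, rfl⟩
  have hB0 : 0 ≤ B := by rw [hB]; positivity
  have hX0 : 0 ≤ X := by rw [hX]; positivity
  have h1 : X ^ 2 ≤ A * X * F + B * F ^ 2 := by
    have e1 : X ^ 2 = x * (x * V ^ 2) := by rw [hX]; ring
    rw [e1]
    have e2 := mul_le_mul_of_nonneg_left h hx.le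
    refine e2.trans ?_
    have e3 : x * (A * F ^ 2) ≤ Phi * (A * F ^ 2) := mul_le_mul_of_nonneg_right hxP (by positivity)
    have e4 : x ^ 2 * (G * F ^ 2) ≤ Phi ^ 2 * (G * F ^ 2) :=
      mul_le_mul_of_nonneg_right (pow_le_pow_left₀ hx.le hxP 2) (by positivity)
    rw [hB, hX]
    linarith
  have h2 : X ≤ (A + B + 1) * F := by
    by_contra hcon
    push Not at hcon
    have hXpos : 0 < X := lt_of_le_of_lt (by positivity) hcon
    have hFX : F ≤ X := by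
      refine le_trans ?_ hcon.le
      have : 0 ≤ (A + B) * F := by positivity
      linarith
    have e1 : (A + B + 1) * F * X < X ^ 2 := by
      rw [sq]
      exact mul_lt_mul_of_pos_right hcon hXpos
    have e2 : B * F ^ 2 ≤ B * F * X := by
      rw [sq, ← mul_assoc]
      exact mul_le_mul_of_nonneg_left hFX (by positivity)
    have e3 : 0 ≤ F * X := by positivity
    linarith
  rw [← hB, div_mul_eq_mul_div, le_div_iff₀ hx]
  rw [hX] at h2
  linarith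

/-- **the network theorem** -/
theorem net (N : ℕ) (Phi : ℝ) (hPhi : 0 < Phi) : ∃ th > 0, ∃ K > 0, ∀ x y : ℝ, 0 < x → x ≤ Phi →
    |y| ≤ th → ∀ (R : ℕ) (F : ℝ) (k : ℕ → ℕ) (σ : ℕ → ℕ → ℝ) (c : ℕ → ℕ → ℂ) (ev : ℕ → MEv),
      Nt N (ss x y) F R k σ c ev → ∀ p0 : ℕ × ℕ, p0.1 ≤ R → p0.2 < k p0.1 → Gd c p0 F →
      (∀ S : ℕ × ℕ → Prop, S p0 → (∀ a b, Lk R k ev a b → (S a ↔ S b)) →
        ∀ r ≤ R, ∀ i < k r, S (r, i)) →
      ∀ r ≤ R, ∀ i < k r, ‖c r i‖ ≤ K / x * F ∧ ‖c r (i + 1)‖ ≤ K / x * F := by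
  obtain ⟨th0, hth0, ka, hka, K, hK, H⟩ := runEst N hPhi.le
  have hE : 1 ≤ Real.exp Phi := Real.one_le_exp hPhi.le
  obtain ⟨Kl, hKl⟩ : ∃ Kl, Kl = Real.exp Phi * (K + 4) := ⟨_, rfl⟩
  have hKl1 : 1 ≤ Kl := by rw [hKl]; nlinarith
  obtain ⟨Kp, hKp⟩ : ∃ Kp, Kp = (2 * Kl) ^ ((N + 1) * N) := ⟨_, rfl⟩
  have hKp1 : 1 ≤ Kp := by
    rw [hKp]
    exact one_le_pow₀ (by linarith)
  obtain ⟨M, hM⟩ : ∃ M, M = 4 * Kp ^ 2 * (N + 1) * K / ka + 1 := ⟨_, rfl⟩
  have hM1 : 1 ≤ M := by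
    rw [hM]
    have : 0 ≤ 4 * Kp ^ 2 * (N + 1) * K / ka := by positivity
    linarith
  obtain ⟨K', hK'⟩ : ∃ K', K' = (N + 2) * (2 * (Real.exp Phi + 1)) := ⟨_, rfl⟩
  have hK'0 : 0 ≤ K' := by rw [hK']; positivity
  obtain ⟨A, hA⟩ : ∃ A, A = 4 * Kp ^ 2 * N * K' / ka := ⟨_, rfl⟩
  obtain ⟨G, hG⟩ : ∃ G, G = 4 * Kp ^ 2 := ⟨_, rfl⟩
  have hA0 : 0 ≤ A := by rw [hA]; positivity
  have hG0 : 0 ≤ G := by rw [hG]; positivity
  refine ⟨min th0 (min 1 (1 / M)), lt_min hth0 (lt_min one_pos (by positivity)),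
    A + (A * Phi + G * Phi ^ 2) + 1, by positivity, ?_⟩
  intro x y hx hxP hy R F k σ c ev h p0 hp0 hp0' hbase hconn
  have y1 : |y| ≤ th0 := hy.trans (min_le_left _ _)
  have y2 : |y| ≤ 1 := hy.trans ((min_le_right _ _).trans (min_le_left _ _))
  have y3 : |y| ≤ 1 / M := hy.trans ((min_le_right _ _).trans (min_le_right _ _))
  have hF : 0 ≤ F := (norm_nonneg _).trans hbase.1
  have hysq : y ^ 2 ≤ |y| := by
    rw [← sq_abs]
    have := abs_nonneg y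
    nlinarith
  have hyM : y ^ 2 ≤ 1 / M := hysq.trans y3
  have hcos := Real.one_sub_sq_div_two_le_cos (x := y)
  have hcos1 : 1 / 2 ≤ Real.cos y := by linarith
  have hcos2 := Real.cos_le_one y
  have hch1 := Real.one_le_cosh x
  have hch2 : Real.cosh x ≤ Real.exp Phi :=
    (cosh_le hx.le).trans (Real.exp_le_exp.2 hxP)
  obtain ⟨C, hCd⟩ : ∃ C, C = Real.cosh x * Real.cos y := ⟨_, rfl⟩
  have hC : 0 ≤ Real.cosh x * Real.cos y := by positivity
  have hC2 : C ≤ Real.exp Phi := by rw [hCd]; nlinarith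
  obtain ⟨Z, hZ⟩ := Nt.data hka hK H hx hxP y1 hC hF h
  rw [← hCd] at hZ hC
  -- the total deviation
  obtain ⟨S2, hS2⟩ : ∃ S2, S2 = ∑ r ∈ Finset.range R, Z r ^ 2 := ⟨_, rfl⟩
  have hS20 : 0 ≤ S2 := by
    rw [hS2]
    exact Finset.sum_nonneg fun r _ => sq_nonneg _
  obtain ⟨Zm, hZm⟩ : ∃ Zm, Zm = Real.sqrt S2 := ⟨_, rfl⟩
  have hZm0 : 0 ≤ Zm := by rw [hZm]; exact Real.sqrt_nonneg _
  have hZm2 : Zm ^ 2 = S2 := by rw [hZm]; exact Real.sq_sqrt hS20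
  have hZr : ∀ r < R, Z r ≤ Zm := by
    intro r hr
    rw [hZm]
    apply Real.le_sqrt_of_sq_le
    rw [hS2]
    exact Finset.single_le_sum (f := fun r => Z r ^ 2) (fun j _ => sq_nonneg _)
      (Finset.mem_range.2 hr)
  -- spreading
  have hsp : ∀ a ∈ Str R N k, Gd c a (Kp * (Zm + F)) := by
    have h0 := spread (Str R N k) (Lk R k ev) (Gd c)
      (fun a D D' hDD ha => ⟨ha.1.trans hDD, ha.2.trans hDD⟩)
      (x0 := p0) ((mem_Str h.hk).2 ⟨hp0, hp0'⟩) (K := Kl) (E := Zm + F) hKl1 (by positivity)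
      ⟨hbase.1.trans (by linarith), hbase.2.trans (by linarith)⟩
      (fun a b hab => h.mem hab)
      (fun a b hab D hD => by
        rw [hKl]
        exact Nt.link hPhi.le hK hx hxP hF h (fun r hr => ⟨(hZ r hr).1, (hZ r hr).2.1⟩) hZr hZm0
          hab D hD)
      (fun S hS hcl a ha => by
        obtain ⟨a1, a2⟩ := (mem_Str h.hk).1 ha
        exact hconn S hS hcl a.1 a1 a.2 a2)
    intro a ha
    have h1 := h0 a ha
    have hcard : (Str R N k).card ≤ (N + 1) * N := by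
      refine (Finset.card_filter_le _ _).trans ?_
      rw [Finset.card_product, Finset.card_range, Finset.card_range]
      exact Nat.mul_le_mul_right _ (by have := h.hR; omega)
    have h2 : (2 * Kl) ^ (Str R N k).card * (Zm + F) ≤ Kp * (Zm + F) := by
      rw [hKp]
      exact mul_le_mul_of_nonneg_right (pow_le_pow_right₀ (by linarith) hcard) (by positivity)
    exact ⟨h1.1.trans h2, h1.2.trans h2⟩
  -- the maximum
  obtain ⟨am, ham, hmax⟩ := Finset.exists_max_image (Str R N k)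
    (fun a => max ‖c a.1 a.2‖ ‖c a.1 (a.2 + 1)‖) ⟨p0, (mem_Str h.hk).2 ⟨hp0, hp0'⟩⟩
  obtain ⟨V, hV⟩ : ∃ V, V = max ‖c am.1 am.2‖ ‖c am.1 (am.2 + 1)‖ := ⟨_, rfl⟩
  rw [← hV] at hmax
  have hV0 : 0 ≤ V := by rw [hV]; exact le_max_of_le_left (norm_nonneg _)
  have hVle : V ≤ Kp * (Zm + F) := by
    rw [hV]
    exact max_le (hsp am ham).1 (hsp am ham).2
  have hVb : ∀ r ≤ R, Bdd (k r) (c r) V := by
    intro r hr i hi
    have := hmax (r, i) ((mem_Str h.hk).2 ⟨hr, hi⟩)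
    exact ⟨(le_max_left _ _).trans this, (le_max_right _ _).trans this⟩
  -- the energy balance
  have hen : ka * x * S2 ≤ N * (K * x * y ^ 2 * V ^ 2 + K' * (V + F) * F) := by
    have h1 : ∑ r ∈ Finset.range R, (ka * x * Z r ^ 2 - (K * x * y ^ 2 * V ^ 2 +
        K' * (V + F) * F)) ≤ 0 := by
      have h2 : ∀ r ∈ Finset.range R, (ka * x * Z r ^ 2 - (K * x * y ^ 2 * V ^ 2 +
        K' * (V + F) * F)) ≤ fl C (k r) (σ r) (c r) - fl C (k (r + 1)) (σ (r + 1)) (c (r + 1)) := by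
        intro r hr
        have hr' := Finset.mem_range.1 hr
        have h3 := (hZ r hr').2.2 V (hVb r hr'.le) (hVb (r + 1) hr') hV0
        refine le_trans ?_ h3
        have h4 : (N + 2) * (2 * (C + 1) * (V + F) * F) ≤ K' * (V + F) * F := by
          rw [hK']
          have h5 : 2 * (C + 1) * ((V + F) * F) ≤ 2 * (Real.exp Phi + 1) * ((V + F) * F) :=
            mul_le_mul_of_nonneg_right (by linarith) (by positivity)
          have h6 := mul_le_mul_of_nonneg_left h5 (by positivity : (0 : ℝ) ≤ (N : ℝ) + 2)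
          linarith
        linarith
      refine (Finset.sum_le_sum h2).trans ?_
      rw [tele (fun r => fl C (k r) (σ r) (c r))]
      simp only [h.k0, h.kR]
      unfold fl
      simp
    rw [Finset.sum_sub_distrib, ← Finset.mul_sum, ← hS2, Finset.sum_const, Finset.card_range,
      nsmul_eq_mul] at h1
    have h2 : (R : ℝ) * (K * x * y ^ 2 * V ^ 2 + K' * (V + F) * F) ≤
        N * (K * x * y ^ 2 * V ^ 2 + K' * (V + F) * F) := by
      apply mul_le_mul_of_nonneg_right _ (by positivity)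
      exact_mod_cast h.hR
    linarith
  -- conclusion
  have hV2 : V ^ 2 ≤ 2 * Kp ^ 2 * S2 + 2 * Kp ^ 2 * F ^ 2 := by
    have h1 := pow_le_pow_left₀ hV0 hVle 2
    rw [← hZm2]
    have h2 : (Kp * (Zm + F)) ^ 2 ≤ 2 * Kp ^ 2 * Zm ^ 2 + 2 * Kp ^ 2 * F ^ 2 := by
      have h3 : 0 ≤ Kp ^ 2 * (Zm - F) ^ 2 := by positivity
      nlinarith
    linarith
  have hfin : x * V ^ 2 ≤ A * (V * F + F ^ 2) + G * x * F ^ 2 := by
    have h1 : ka * x * V ^ 2 ≤ 2 * Kp ^ 2 * (N * (K * x * y ^ 2 * V ^ 2 + K' * (V + F) * F)) +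
        2 * Kp ^ 2 * (ka * x * F ^ 2) := by
      have h2 := mul_le_mul_of_nonneg_left hV2 (by positivity : 0 ≤ ka * x)
      have h3 := mul_le_mul_of_nonneg_left hen (by positivity : 0 ≤ 2 * Kp ^ 2)
      linarith
    have h4 : 2 * Kp ^ 2 * (N * (K * x * y ^ 2 * V ^ 2)) ≤ ka / 2 * (x * V ^ 2) := by
      have h5 : 2 * Kp ^ 2 * N * K * y ^ 2 ≤ ka / 2 := by
        have h6 : 4 * Kp ^ 2 * N * K ≤ ka * M := by
          have e1 : ka * M = 4 * Kp ^ 2 * (N + 1) * K + ka := by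
            rw [hM]
            field_simp
          rw [e1]
          have : 0 ≤ 4 * Kp ^ 2 * K := by positivity
          linarith
        have h7 : 4 * Kp ^ 2 * N * K * y ^ 2 ≤ ka * M * (1 / M) :=
          mul_le_mul h6 hyM (sq_nonneg _) (by positivity)
        have h8 : ka * M * (1 / M) = ka := by field_simp
        linarith
      have h9 := mul_le_mul_of_nonneg_right h5 (by positivity : 0 ≤ x * V ^ 2)
      linarith
    have h10 : ka / 2 * (x * V ^ 2) ≤ 2 * Kp ^ 2 * N * K' * ((V + F) * F) +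
        2 * Kp ^ 2 * (ka * x * F ^ 2) := by linarith
    have h11 : ka * (x * V ^ 2) ≤ ka * (A * (V * F + F ^ 2) + G * x * F ^ 2) := by
      have e1 : ka * A = 4 * Kp ^ 2 * N * K' := by
        rw [hA]
        field_simp
      have e2 : ka * (A * (V * F + F ^ 2) + G * x * F ^ 2) =
          (ka * A) * ((V + F) * F) + 4 * Kp ^ 2 * (ka * x * F ^ 2) := by
        rw [hG]
        ring
      rw [e2, e1]
      linarith
    exact le_of_mul_le_mul_left h11 hka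
  have hq := quad hx hxP hV0 hF hA0 hG0 hfin
  intro r hr i hi
  have := hVb r hr i hi
  exact ⟨this.1.trans hq, this.2.trans hq⟩

end Pool.Agent.Helper78.EV2
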