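import Pool.Agent.Helper27.EV2.Rec
import Pool.Agent.Helper77.EV2.Lower

/-!
# Connected words of rows give connected chains
-/

set_option autoImplicit false

namespace Pool.Agent.Helper78.EV2

open Pool.Agent.Helper27.EV2

theorem lv_zero (W : Word) : lv W 0 = [] := rfl

theorem lv_succ (W : Word) {r : ℕ} (hr : r < W.length) : lv W (r + 1) = (row W r).e.act (lv W r) := by
  unfold lv row
  rw [List.take_add_one, List.getElem?_eq_getElem hr, Option.toList_some, List.foldl_append,
    List.getD_eq_getElem _ _ hr]
  rfl

theorem act_mx_length (k : ℕ) (d : Bool) (l : List Bool) (h : k ≤ l.length) :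
    ((Ext.mx k d).act l).length = l.length + 2 := by
  unfold Ext.act
  rw [List.length_append, List.length_cons, List.length_cons, List.length_take, List.length_drop]
  omega

theorem act_mn_length (k : ℕ) (l : List Bool) (h : k + 1 < l.length) :
    ((Ext.mn k).act l).length + 2 = l.length := by
  unfold Ext.act
  rw [List.length_append, List.length_take, List.length_drop]
  omega

theorem mn_ok {k : ℕ} {l : List Bool} (h : (Ext.mn k).Ok l) : k + 1 < l.length := by
  obtain ⟨d, _, h2⟩ := h
  exact (List.getElem?_eq_some_iff.1 h2).1

theorem length_mx {W : Word} (hW : Pool.Agent.Helper27.EV2.Ok W) {r : ℕ} (hr : r < W.length) {k : ℕ} {d : Bool}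
    (he : (row W r).e = .mx k d) :
    k ≤ (lv W r).length ∧ (lv W (r + 1)).length = (lv W r).length + 2 := by
  have h := hW.ext r hr
  rw [he] at h
  have h' : k ≤ (lv W r).length := h
  refine ⟨h', ?_⟩
  rw [lv_succ W hr, he, act_mx_length _ _ _ h']

theorem length_mn {W : Word} (hW : Pool.Agent.Helper27.EV2.Ok W) {r : ℕ} (hr : r < W.length) {k : ℕ}
    (he : (row W r).e = .mn k) :
    k + 1 < (lv W r).length ∧ (lv W (r + 1)).length + 2 = (lv W r).length := by
  have h := hW.ext r hr
  rw [he] at h
  have h' := mn_ok h
  refine ⟨h', ?_⟩
  rw [lv_succ W hr, he, act_mn_length _ _ h']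

/-- the extremum without the directions -/
def xt (W : Word) (r : ℕ) : Pool.Agent.Helper77.EV2.Xt :=
  match (row W r).e with
  | .mx k _ => .mx k
  | .mn k => .mn k

theorem xt_mx {W : Word} {r k : ℕ} {d : Bool} (he : (row W r).e = .mx k d) : xt W r = .mx k := by
  unfold xt
  rw [he]

theorem xt_mn {W : Word} {r k : ℕ} (he : (row W r).e = .mn k) : xt W r = .mn k := by
  unfold xt
  rw [he]

theorem getD_mem_of_lt {w : List ℕ} {i : ℕ} (hi : i < w.length) : w.getD i 0 ∈ w := by
  rw [List.getD_eq_getElem _ _ hi]
  exact List.getElem_mem hi

theorem conn_rows' {W : Word} (hW : Pool.Agent.Helper27.EV2.Ok W) (hne : W ≠ []) (hc : Pool.Agent.Helper27.EV2.Conn W) :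
    Pool.Agent.Helper77.EV2.Conn W.length (xt W) (fun r => (row W r).w) (fun r => (lv W r).length) := by
  intro S hS h10
  have hn : 0 < W.length := List.length_pos_iff.2 hne
  -- the first row is a maximum
  obtain ⟨k0, d0, he0⟩ : ∃ k d, (row W 0).e = .mx k d := by
    cases he : (row W 0).e with
    | mx k d => exact ⟨k, d, rfl⟩
    | mn k =>
      have := (length_mn hW hn he).1
      rw [lv_zero] at this
      simp at this
  have hk0 := length_mx hW hn he0
  rw [lv_zero] at hk0
  have hk00 : k0 = 0 := by
    have := hk0.1
    simp at this
    exact this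
  have hlen1 : (lv W 1).length = 2 := by simpa using hk0.2
  -- a letter
  have hsw : ∀ r < W.length, ∀ a ∈ (row W r).w, ∀ j, (S (r + 1) (sw a j) ↔ S (r + 1) j) := by
    intro r hr a ha j
    have h := hS.word r hr a ha
    unfold sw
    split_ifs with h1 h2
    · rw [h1]
      exact h.symm
    · rw [h2]
      exact h
    · exact Iff.rfl
  -- the last row
  have hlast : ∀ p : Pt W, p.r + 1 < W.length := by
    intro p
    have h1 := p.hr
    rcases Nat.lt_or_ge (p.r + 1) W.length with h | h
    · exact h
    · have h2 : p.r + 1 = W.length := by omega
      have h3 := p.hj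
      rw [h2, hW.closed] at h3
      simp at h3
  -- membership of `mk`
  have hmk : ∀ (q : ℕ × ℕ × ℕ) (p : Pt W),
      (q.1 < W.length → q.2.2 < (lv W (q.1 + 1)).length → (S (q.1 + 1) q.2.2 ↔ S (p.r + 1) p.j)) →
      (S ((mk W q p).r + 1) (mk W q p).j ↔ S (p.r + 1) p.j) := by
    intro q p h
    unfold mk
    split_ifs with h1
    · exact h h1.1 h1.2.2
    · exact Iff.rfl
  have hall : ∀ v : Pt W, S (v.r + 1) v.j := by
    refine hc (fun p => S (p.r + 1) p.j) ⟨⟨0, 0, 0, hn, Nat.zero_le _, by rw [hlen1]; omega⟩, h10⟩ ?_ ?_
    · intro p
      apply hmk
      have hr := p.hr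
      have hr1 := hlast p
      have hj := p.hj
      unfold nxRaw
      split_ifs with h1 h2 h3
      · intro _ _
        exact hsw p.r hr _ (getD_mem_of_lt h2) p.j
      · cases he : (row W (p.r + 1)).e with
        | mx k d =>
          obtain ⟨a1, a2⟩ := length_mx hW hr1 he
          simp only
          intro _ _
          split_ifs with h4
          · exact (hS.mxl (p.r + 1) hr1 k (xt_mx he) p.j h4).symm
          · exact (hS.mxr (p.r + 1) hr1 k (xt_mx he) p.j (by omega) hj).symm
        | mn k =>
          obtain ⟨a1, a2⟩ := length_mn hW hr1 he
          simp only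
          split_ifs with h4 h5 h6
          · intro _ _
            exact (hS.mnl (p.r + 1) hr1 k (xt_mn he) p.j h4).symm
          · intro _ _
            have := hS.mnc (p.r + 1) hr1 k (xt_mn he)
            rw [h5]
            exact this.symm
          · intro _ _
            have := hS.mnc (p.r + 1) hr1 k (xt_mn he)
            rw [h6]
            exact this
          · intro _ _
            have := hS.mnr (p.r + 1) hr1 k (xt_mn he) (p.j - 2) (by omega)
              (by show p.j - 2 < (lv W (p.r + 1 + 1)).length; omega)
            have e : p.j - 2 + 2 = p.j := by omega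
            rw [e] at this
            exact this.symm
      · intro _ _
        exact Iff.rfl
      · cases he : (row W p.r).e with
        | mx k d =>
          obtain ⟨a1, a2⟩ := length_mx hW hr he
          have hr0 : p.r = 0 → (lv W p.r).length = 0 := by
            intro h
            rw [h, lv_zero]
            rfl
          simp only
          split_ifs with h4 h5 h6
          · intro _ _
            have e : p.r - 1 + 1 = p.r := by
              rcases Nat.eq_zero_or_pos p.r with h | h
              · have := hr0 h
                omega
              · omega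
            show S (p.r - 1 + 1) p.j ↔ S (p.r + 1) p.j
            rw [e]
            exact hS.mxl p.r hr k (xt_mx he) p.j h4
          · intro _ _
            have := hS.mxc p.r hr k (xt_mx he)
            rw [h5]
            exact this.symm
          · intro _ _
            have := hS.mxc p.r hr k (xt_mx he)
            rw [h6]
            exact this
          · intro _ _
            have e : p.r - 1 + 1 = p.r := by
              rcases Nat.eq_zero_or_pos p.r with h | h
              · have := hr0 h
                omega
              · omega
            show S (p.r - 1 + 1) (p.j - 2) ↔ S (p.r + 1) p.j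
            rw [e]
            have := hS.mxr p.r hr k (xt_mx he) (p.j - 2) (by omega)
              (by show p.j - 2 < (lv W p.r).length; omega)
            have e : p.j - 2 + 2 = p.j := by omega
            rw [e] at this
            exact this
        | mn k =>
          obtain ⟨a1, a2⟩ := length_mn hW hr he
          have e : p.r - 1 + 1 = p.r := by
            rcases Nat.eq_zero_or_pos p.r with h | h
            · rw [h, lv_zero] at a1
              simp at a1
            · omega
          simp only
          split_ifs with h4
          · intro _ _
            show S (p.r - 1 + 1) p.j ↔ S (p.r + 1) p.j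
            rw [e]
            exact hS.mnl p.r hr k (xt_mn he) p.j h4
          · intro _ _
            show S (p.r - 1 + 1) (p.j + 2) ↔ S (p.r + 1) p.j
            rw [e]
            exact hS.mnr p.r hr k (xt_mn he) p.j (by omega) hj
    · intro p
      unfold op
      split_ifs with h1
      · apply hmk
        intro _ _
        exact hsw p.r p.hr _ (getD_mem_of_lt h1.1) p.j
      · exact Iff.rfl
  intro r hr i hi
  rcases Nat.eq_zero_or_pos r with h | h
  · subst h
    simp only [lv_zero] at hi
    simp at hi
  · have e : r - 1 + 1 = r := by omega
    have := hall ⟨r - 1, 0, i, by omega, Nat.zero_le _, by rw [e]; exact hi⟩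
    simpa [e] using this

theorem conn_rows {W : Word} (hW : Pool.Agent.Helper27.EV2.Ok W) (hne : W ≠ []) (hc : Pool.Agent.Helper27.EV2.Conn W) :
    Pool.Agent.Helper77.EV2.Conn W.length
      (fun r => match (row W r).e with
        | .mx k _ => Pool.Agent.Helper77.EV2.Xt.mx k
        | .mn k => Pool.Agent.Helper77.EV2.Xt.mn k)
      (fun r => (row W r).w) (fun r => (lv W r).length) :=
  conn_rows' hW hne hc

end Pool.Agent.Helper78.EV2
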