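import Pool.Agent.Helper78.EV.LemmaC

/-!
# A run of crossings on a slice of a diagram, in gap coordinates

The gaps of a slice with `k` strands are `0, ..., k`; the letter `a` changes the gap `a + 1`
between the strands `a` and `a + 1`.
-/

set_option autoImplicit false

namespace Pool.Agent.Helper78.EV2

open Matrix Pool.Agent.Helper99.ZB Pool.Agent.Helper78.EV

/-- one crossing in gap coordinates -/
noncomputable def fstep (s : ℂ) (c : ℕ → ℂ) (a : ℕ) : ℕ → ℂ :=
  Function.update c (a + 1) (-s ^ 2 * c (a + 1) + s * (c a + c (a + 2)))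

/-- a word of crossings in gap coordinates, the first letter acts first -/
noncomputable def frun (s : ℂ) (w : List ℕ) (c : ℕ → ℂ) : ℕ → ℂ := w.foldl (fstep s) c

/-- the energy of a strand -/
noncomputable def ee (C : ℝ) (u v : ℂ) : ℝ :=
  C * (‖u‖ ^ 2 + ‖v‖ ^ 2) / 2 - ((starRingEnd ℂ) u * v).re

/-- the flux through a slice -/
noncomputable def fl (C : ℝ) (k : ℕ) (σ : ℕ → ℝ) (c : ℕ → ℂ) : ℝ :=
  ∑ i ∈ Finset.range k, σ i * ee C (c i) (c (i + 1))

/-- the gaps of a slice as a vector -/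
def gv (k : ℕ) (c : ℕ → ℂ) : Fin (k + 1) → ℂ := fun i => c i

theorem sum_adj {k a : ℕ} (ha : a + 1 < k) (c : ℕ → ℂ) :
    ∑ j : Fin (k + 1), ((adj (⟨a + 1, by omega⟩ : Fin (k + 1)) j : ℝ) : ℂ) * gv k c j =
      c a + c (a + 2) := by
  rw [Fintype.sum_eq_add (⟨a, by omega⟩ : Fin (k + 1)) (⟨a + 2, by omega⟩ : Fin (k + 1))]
  · have h1 : adj (⟨a + 1, by omega⟩ : Fin (k + 1)) (⟨a, by omega⟩ : Fin (k + 1)) = 1 := by
      unfold adj
      rw [if_pos (Or.inl rfl)]
    have h2 : adj (⟨a + 1, by omega⟩ : Fin (k + 1)) (⟨a + 2, by omega⟩ : Fin (k + 1)) = 1 := by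
      unfold adj
      rw [if_pos (Or.inr rfl)]
    rw [h1, h2]
    simp [gv]
  · intro h
    have := congrArg Fin.val h
    simp at this
  · rintro j ⟨h1, h2⟩
    have h3 : adj (⟨a + 1, by omega⟩ : Fin (k + 1)) j = 0 := by
      unfold adj
      rw [if_neg]
      rintro (h | h)
      · exact h1 (Fin.ext (by simpa using h))
      · exact h2 (Fin.ext (by simpa using h.symm))
    rw [h3]
    simp

theorem T_gv {k a : ℕ} (ha : a + 1 < k) (C : ℝ) (c : ℕ → ℂ) :
    T C (gv k c) (⟨a + 1, by omega⟩ : Fin (k + 1)) =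
      C * c (a + 1) - (1 / 2) * (c a + c (a + 2)) := by
  unfold T
  rw [sum_adj ha]
  rfl

theorem ell_gv {k a : ℕ} (ha : a + 1 < k) {s : ℂ} {C d : ℝ}
    (hs : 1 + s ^ 2 = 2 * s * (C + d * Complex.I)) (c : ℕ → ℂ) :
    ell s (k + 1) (⟨a + 1, by omega⟩ : Fin (k + 1)) ⬝ᵥ gv k c =
      (1 + s ^ 2) * c (a + 1) - s * (c a + c (a + 2)) := by
  rw [ell_eq hs, T_gv ha, hs]
  unfold gv
  ring

theorem gv_update {k a : ℕ} (ha : a + 1 < k) (c : ℕ → ℂ) (b : ℂ) :
    gv k (Function.update c (a + 1) (c (a + 1) - b)) =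
      gv k c - Pi.single (⟨a + 1, by omega⟩ : Fin (k + 1)) b := by
  ext i
  unfold gv
  by_cases h : i = (⟨a + 1, by omega⟩ : Fin (k + 1))
  · subst h
    simp
  · rw [Pi.sub_apply, Pi.single_eq_of_ne h, sub_zero, Function.update_of_ne]
    intro h'
    exact h (Fin.ext h')

theorem fstep_eq {s : ℂ} (c : ℕ → ℂ) (a : ℕ) :
    fstep s c a = Function.update c (a + 1)
      (c (a + 1) - ((1 + s ^ 2) * c (a + 1) - s * (c a + c (a + 2)))) := by
  unfold fstep
  congr 1
  ring

theorem gv_fstep {k a : ℕ} (ha : a + 1 < k) {s : ℂ} {C d : ℝ}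
    (hs : 1 + s ^ 2 = 2 * s * (C + d * Complex.I)) (c : ℕ → ℂ) :
    gv k (fstep s c a) = act s [(⟨a + 1, by omega⟩ : Fin (k + 1))] (gv k c) := by
  rw [act_cons, act_nil, fstep_eq, gv_update ha, ell_gv ha hs]

theorem gv_frun {k : ℕ} {s : ℂ} {C d : ℝ}
    (hs : 1 + s ^ 2 = 2 * s * (C + d * Complex.I)) (w : List ℕ) (hw : ∀ a ∈ w, a + 1 < k) :
    ∃ w' : List (Fin (k + 1)), (∀ b : Fin (k + 1), b ∈ w' ↔ ∃ a ∈ w, a + 1 = b) ∧
      ∀ c : ℕ → ℂ, gv k (frun s w c) = act s w' (gv k c) := by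
  induction w with
  | nil => exact ⟨[], by simp, fun c => by simp [frun]⟩
  | cons a w ih =>
    obtain ⟨w', h1, h2⟩ := ih fun b hb => hw b (List.mem_cons_of_mem _ hb)
    have ha := hw a (by simp)
    refine ⟨w' ++ [(⟨a + 1, by omega⟩ : Fin (k + 1))], ?_, fun c => ?_⟩
    · intro b
      rw [List.mem_append, h1, List.mem_singleton]
      constructor
      · rintro (⟨a', ha', h⟩ | h)
        · exact ⟨a', List.mem_cons_of_mem _ ha', h⟩
        · exact ⟨a, by simp, by rw [h]⟩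
      · rintro ⟨a', ha', h⟩
        rcases List.mem_cons.1 ha' with rfl | h'
        · exact Or.inr (Fin.ext h.symm)
        · exact Or.inl ⟨a', h', h⟩
    · rw [act_append, ← gv_fstep ha hs, ← h2]
      rfl

/-- the flux and the energy form change in the same way -/
theorem fl_update {k a : ℕ} (ha : a + 1 < k) (C τ : ℝ) (σ : ℕ → ℝ) (h1 : σ a = τ)
    (h2 : σ (a + 1) = τ) (c : ℕ → ℂ) (b : ℂ) :
    fl C k σ (Function.update c (a + 1) (c (a + 1) - b)) - fl C k σ c =
      τ * (hh C (gv k (Function.update c (a + 1) (c (a + 1) - b))) - hh C (gv k c)) := by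
  rw [gv_update ha, hh_update, T_gv ha]
  unfold fl
  rw [← Finset.sum_sub_distrib, Finset.sum_eq_add a (a + 1) (by omega)]
  · rw [h1, h2, Function.update_of_ne (by omega : a ≠ a + 1), Function.update_self,
      Function.update_of_ne (by omega : a + 1 + 1 ≠ a + 1)]
    unfold ee
    have e1 : ‖c (a + 1) - b‖ ^ 2 = ‖c (a + 1)‖ ^ 2 - 2 * ((starRingEnd ℂ) b * c (a + 1)).re +
        ‖b‖ ^ 2 := by
      rw [← Complex.normSq_eq_norm_sq, ← Complex.normSq_eq_norm_sq, ← Complex.normSq_eq_norm_sq,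
        Complex.normSq_sub]
      have : (c (a + 1) * (starRingEnd ℂ) b).re = ((starRingEnd ℂ) b * c (a + 1)).re := by
        rw [mul_comm]
      rw [this]
      ring
    rw [e1]
    simp only [map_sub, Complex.mul_re, Complex.sub_re, Complex.sub_im, Complex.conj_re,
      Complex.conj_im, Complex.add_re, Complex.add_im, Complex.ofReal_re, Complex.ofReal_im,
      Complex.mul_im]
    norm_num
    ring
  · intro i _ ⟨hi1, hi2⟩
    by_cases hi3 : i + 1 = a + 1
    · exact absurd (by omega) hi1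
    · rw [Function.update_of_ne hi2, Function.update_of_ne hi3, sub_self]
  · intro h
    exact absurd (Finset.mem_range.2 (by omega)) h
  · intro h
    exact absurd (Finset.mem_range.2 (by omega)) h

theorem fl_frun {k : ℕ} (C τ : ℝ) (σ : ℕ → ℝ) (s : ℂ) (w : List ℕ)
    (hw : ∀ a ∈ w, a + 1 < k ∧ σ a = τ ∧ σ (a + 1) = τ) (c : ℕ → ℂ) :
    fl C k σ (frun s w c) - fl C k σ c = τ * (hh C (gv k (frun s w c)) - hh C (gv k c)) := by
  induction w generalizing c with
  | nil => simp [frun]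
  | cons a w ih =>
    obtain ⟨ha, h1, h2⟩ := hw a (by simp)
    have h3 := ih (fun b hb => hw b (List.mem_cons_of_mem _ hb)) (fstep s c a)
    have h4 := fl_update ha C τ σ h1 h2 c ((1 + s ^ 2) * c (a + 1) - s * (c a + c (a + 2)))
    rw [← fstep_eq] at h4
    have e : frun s (a :: w) c = frun s w (fstep s c a) := rfl
    rw [e]
    linear_combination h3 + h4

end Pool.Agent.Helper78.EV2
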