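import Pool.Agent.Helper78.EV2.Run

/-!
# The network theorem: a diagram with boundedly many extrema and arbitrarily long runs

`c r i` is the value of the gap `i` of the slice `r`; a slice has `k r` strands and the gaps
`0, ..., k r`; all relations hold up to a defect `F`.
-/

set_option autoImplicit false

namespace Pool.Agent.Helper78.EV2

open Matrix Pool.Agent.Helper99.ZB Pool.Agent.Helper78.EV

/-- macro events -/
inductive MEv
  | mx (j : ℕ)
  | mn (j : ℕ)
  | dn (w : List ℕ)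
  | up (w : List ℕ)

/-- a turn: two new strands `j`, `j + 1` in the primed slice -/
structure Turn (F : ℝ) (j k k' : ℕ) (σ σ' : ℕ → ℝ) (c c' : ℕ → ℂ) : Prop where
  hk : k' = k + 2
  hj : j ≤ k
  s0 : σ' j + σ' (j + 1) = 0
  sl : ∀ i < j, σ' i = σ i
  sr : ∀ i, j ≤ i → i < k → σ' (i + 2) = σ i
  cl : ∀ i ≤ j, ‖c' i - c i‖ ≤ F
  cr : ∀ i, j ≤ i → i ≤ k → ‖c' (i + 2) - c i‖ ≤ F

/-- a run: the primed slice is the exit, all letters have direction `τ` -/
structure Rn (s : ℂ) (F τ : ℝ) (w : List ℕ) (k k' : ℕ) (σ σ' : ℕ → ℝ) (c c' : ℕ → ℂ) : Prop where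
  hk : k' = k
  hs : ∀ i < k, σ' i = σ i
  hw : ∀ a ∈ w, a + 1 < k ∧ σ a = τ ∧ σ (a + 1) = τ
  hc : ∀ i ≤ k, ‖c' i - frun s w c i‖ ≤ F

/-- the relation between two successive slices -/
def Ok (s : ℂ) (F : ℝ) (k k' : ℕ) (σ σ' : ℕ → ℝ) (c c' : ℕ → ℂ) : MEv → Prop
  | .mx j => Turn F j k k' σ σ' c c'
  | .mn j => Turn F j k' k σ' σ c' c
  | .dn w => Rn s F 1 w k k' σ σ' c c'
  | .up w => Rn s F (-1) w k' k σ' σ c' c

/-- links between strands -/
inductive Lk (R : ℕ) (k : ℕ → ℕ) (ev : ℕ → MEv) : ℕ × ℕ → ℕ × ℕ → Prop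
  | dn {r i : ℕ} {w : List ℕ} : r < R → ev r = .dn w → i < k r → Lk R k ev (r, i) (r + 1, i)
  | dnl {r a : ℕ} {w : List ℕ} : r < R → ev r = .dn w → a ∈ w → Lk R k ev (r, a) (r, a + 1)
  | up {r i : ℕ} {w : List ℕ} : r < R → ev r = .up w → i < k r → Lk R k ev (r, i) (r + 1, i)
  | upl {r a : ℕ} {w : List ℕ} : r < R → ev r = .up w → a ∈ w → Lk R k ev (r, a) (r, a + 1)
  | mxl {r i j : ℕ} : r < R → ev r = .mx j → i < j → Lk R k ev (r, i) (r + 1, i)
  | mxr {r i j : ℕ} : r < R → ev r = .mx j → j ≤ i → i < k r → Lk R k ev (r, i) (r + 1, i + 2)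
  | mxc {r j : ℕ} : r < R → ev r = .mx j → Lk R k ev (r + 1, j) (r + 1, j + 1)
  | mnl {r i j : ℕ} : r < R → ev r = .mn j → i < j → Lk R k ev (r, i) (r + 1, i)
  | mnr {r i j : ℕ} : r < R → ev r = .mn j → j ≤ i → i < k (r + 1) →
      Lk R k ev (r, i + 2) (r + 1, i)
  | mnc {r j : ℕ} : r < R → ev r = .mn j → Lk R k ev (r, j) (r, j + 1)

/-! ### Energy -/

theorem ee_symm (C : ℝ) (u v : ℂ) : ee C u v = ee C v u := by
  unfold ee
  simp only [Complex.mul_re, Complex.conj_re, Complex.conj_im]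
  ring

theorem sq_diff_le {u u' : ℂ} {V : ℝ} (hu : ‖u‖ ≤ V) (hu' : ‖u'‖ ≤ V) :
    ‖u‖ ^ 2 - ‖u'‖ ^ 2 ≤ 2 * V * ‖u - u'‖ := by
  have h1 := norm_sub_norm_le u u'
  have h2 := norm_nonneg u
  have h3 := norm_nonneg u'
  have h4 := norm_nonneg (u - u')
  have e : ‖u‖ ^ 2 - ‖u'‖ ^ 2 = (‖u‖ - ‖u'‖) * (‖u‖ + ‖u'‖) := by ring
  rw [e]
  calc (‖u‖ - ‖u'‖) * (‖u‖ + ‖u'‖) ≤ ‖u - u'‖ * (‖u‖ + ‖u'‖) :=
        mul_le_mul_of_nonneg_right h1 (by positivity)
    _ ≤ ‖u - u'‖ * (2 * V) := mul_le_mul_of_nonneg_left (by linarith) h4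
    _ = _ := by ring

theorem ee_diff_le {C V F : ℝ} (hC : 0 ≤ C) {u v u' v' : ℂ}
    (hu : ‖u‖ ≤ V) (hv : ‖v‖ ≤ V) (hu' : ‖u'‖ ≤ V) (hv' : ‖v'‖ ≤ V)
    (h1 : ‖u - u'‖ ≤ F) (h2 : ‖v - v'‖ ≤ F) :
    ee C u v - ee C u' v' ≤ 2 * (C + 1) * V * F := by
  have hV : 0 ≤ V := (norm_nonneg _).trans hu
  have hF : 0 ≤ F := (norm_nonneg _).trans h1
  have a1 := sq_diff_le hu hu'
  have a2 := sq_diff_le hv hv'
  have a3 : 2 * V * ‖u - u'‖ ≤ 2 * V * F := mul_le_mul_of_nonneg_left h1 (by positivity)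
  have a4 : 2 * V * ‖v - v'‖ ≤ 2 * V * F := mul_le_mul_of_nonneg_left h2 (by positivity)
  have a5 : ((starRingEnd ℂ) u' * v').re - ((starRingEnd ℂ) u * v).re ≤ 2 * V * F := by
    have e1 : ((starRingEnd ℂ) u' * v').re - ((starRingEnd ℂ) u * v).re =
        ((starRingEnd ℂ) (u' - u) * v' + (starRingEnd ℂ) u * (v' - v)).re := by
      rw [← Complex.sub_re]
      congr 1
      rw [map_sub]
      ring
    rw [e1]
    refine (Complex.re_le_norm _).trans ((norm_add_le _ _).trans ?_)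
    rw [norm_mul, norm_mul, RCLike.norm_conj, RCLike.norm_conj, norm_sub_rev u' u,
      norm_sub_rev v' v]
    have b1 : ‖u - u'‖ * ‖v'‖ ≤ F * V := mul_le_mul h1 hv' (norm_nonneg _) hF
    have b2 : ‖u‖ * ‖v - v'‖ ≤ V * F := mul_le_mul hu h2 (norm_nonneg _) hV
    linarith
  have a6 : C * (‖u‖ ^ 2 + ‖v‖ ^ 2 - (‖u'‖ ^ 2 + ‖v'‖ ^ 2)) ≤ C * (2 * V * F + 2 * V * F) :=
    mul_le_mul_of_nonneg_left (by linarith) hC
  unfold ee
  linarith

theorem ee_diff_abs {C V F : ℝ} (hC : 0 ≤ C) {u v u' v' : ℂ}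
    (hu : ‖u‖ ≤ V) (hv : ‖v‖ ≤ V) (hu' : ‖u'‖ ≤ V) (hv' : ‖v'‖ ≤ V)
    (h1 : ‖u - u'‖ ≤ F) (h2 : ‖v - v'‖ ≤ F) :
    |ee C u v - ee C u' v'| ≤ 2 * (C + 1) * V * F := by
  rw [abs_le]
  constructor
  · have := ee_diff_le (F := F) hC hu' hv' hu hv (by rwa [norm_sub_rev]) (by rwa [norm_sub_rev])
    linarith
  · exact ee_diff_le hC hu hv hu' hv' h1 h2

/-- bound for the gaps next to the strands of a slice -/
def Bdd (k : ℕ) (c : ℕ → ℂ) (V : ℝ) : Prop := ∀ i < k, ‖c i‖ ≤ V ∧ ‖c (i + 1)‖ ≤ V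

theorem Bdd.le {k : ℕ} {c : ℕ → ℂ} {V : ℝ} (h : Bdd k c V) (hk : 0 < k) {i : ℕ} (hi : i ≤ k) :
    ‖c i‖ ≤ V := by
  rcases Nat.lt_or_ge i k with h1 | h1
  · exact (h i h1).1
  · have : i = (k - 1) + 1 := by omega
    rw [this]
    exact (h (k - 1) (by omega)).2

theorem fl_diff {C V F : ℝ} (hC : 0 ≤ C) {k : ℕ} {σ σ' : ℕ → ℝ} {c c' : ℕ → ℂ}
    (hσ : ∀ i < k, σ i = 1 ∨ σ i = -1) (hσ' : ∀ i < k, σ' i = σ i)
    (hc : Bdd k c V) (hc' : Bdd k c' V) (h : ∀ i ≤ k, ‖c' i - c i‖ ≤ F) :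
    |fl C k σ' c' - fl C k σ c| ≤ k * (2 * (C + 1) * V * F) := by
  unfold fl
  rw [← Finset.sum_sub_distrib]
  refine (Finset.abs_sum_le_sum_abs _ _).trans ?_
  have : ∀ i ∈ Finset.range k, |σ' i * ee C (c' i) (c' (i + 1)) - σ i * ee C (c i) (c (i + 1))| ≤
      2 * (C + 1) * V * F := by
    intro i hi
    have hi' := Finset.mem_range.1 hi
    rw [hσ' i hi', ← mul_sub, abs_mul]
    have e1 : |σ i| = 1 := by
      rcases hσ i hi' with h | h <;> rw [h] <;> simp
    rw [e1, one_mul]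
    exact ee_diff_abs hC (hc' i hi').1 (hc' i hi').2 (hc i hi').1 (hc i hi').2 (h i (by omega))
      (h (i + 1) (by omega))
  refine (Finset.sum_le_card_nsmul _ _ _ this).trans ?_
  simp

/-- the flux through a turn -/
theorem Turn.flux {C V F : ℝ} (hC : 0 ≤ C) {j k k' : ℕ} {σ σ' : ℕ → ℝ} {c c' : ℕ → ℂ}
    (h : Turn F j k k' σ σ' c c') (hσ' : ∀ i < k', σ' i = 1 ∨ σ' i = -1)
    (hc : Bdd k c V) (hc' : Bdd k' c' V) :
    |fl C k' σ' c' - fl C k σ c| ≤ (k + 2) * (2 * (C + 1) * V * F) := by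
  obtain ⟨hk, hj, s0, sl, sr, cl, cr⟩ := h
  subst hk
  obtain ⟨m, rfl⟩ : ∃ m, k = j + m := ⟨k - j, by omega⟩
  have hF : 0 ≤ F := (norm_nonneg _).trans (cl 0 (Nat.zero_le _))
  have hV : 0 ≤ V := (norm_nonneg _).trans (hc' j (by omega)).1
  obtain ⟨A, hA⟩ : ∃ A, A = 2 * (C + 1) * V * F := ⟨_, rfl⟩
  have hA0 : 0 ≤ A := by rw [hA]; positivity
  have e1 : fl C (j + m + 2) σ' c' - fl C (j + m) σ c =
      ∑ i ∈ Finset.range j, (σ' i * ee C (c' i) (c' (i + 1)) - σ i * ee C (c i) (c (i + 1))) +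
      (σ' j * ee C (c' j) (c' (j + 1)) + σ' (j + 1) * ee C (c' (j + 1)) (c' (j + 1 + 1))) +
      ∑ i ∈ Finset.range m, (σ' (j + 2 + i) * ee C (c' (j + 2 + i)) (c' (j + 2 + i + 1)) -
        σ (j + i) * ee C (c (j + i)) (c (j + i + 1))) := by
    unfold fl
    have h1 : j + m + 2 = (j + 2) + m := by ring
    rw [h1, Finset.sum_range_add, Finset.sum_range_add _ j m, Finset.sum_range_succ,
      Finset.sum_range_succ, Finset.sum_sub_distrib, Finset.sum_sub_distrib]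
    ring
  have e2 : |∑ i ∈ Finset.range j,
      (σ' i * ee C (c' i) (c' (i + 1)) - σ i * ee C (c i) (c (i + 1)))| ≤ j * A := by
    refine (Finset.abs_sum_le_sum_abs _ _).trans ?_
    have : ∀ i ∈ Finset.range j,
        |σ' i * ee C (c' i) (c' (i + 1)) - σ i * ee C (c i) (c (i + 1))| ≤ A := by
      intro i hi
      have hi' := Finset.mem_range.1 hi
      rw [← sl i hi', ← mul_sub, abs_mul]
      have e1 : |σ' i| = 1 := by
        rcases hσ' i (by omega) with h | h <;> rw [h] <;> simp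
      rw [e1, one_mul, hA]
      exact ee_diff_abs hC (hc' i (by omega)).1 (hc' i (by omega)).2 (hc i (by omega)).1
        (hc i (by omega)).2 (cl i (by omega)) (cl (i + 1) (by omega))
    refine (Finset.sum_le_card_nsmul _ _ _ this).trans ?_
    simp
  have e3 : |∑ i ∈ Finset.range m, (σ' (j + 2 + i) * ee C (c' (j + 2 + i)) (c' (j + 2 + i + 1)) -
        σ (j + i) * ee C (c (j + i)) (c (j + i + 1)))| ≤ m * A := by
    refine (Finset.abs_sum_le_sum_abs _ _).trans ?_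
    have : ∀ i ∈ Finset.range m,
        |σ' (j + 2 + i) * ee C (c' (j + 2 + i)) (c' (j + 2 + i + 1)) -
        σ (j + i) * ee C (c (j + i)) (c (j + i + 1))| ≤ A := by
      intro i hi
      have hi' := Finset.mem_range.1 hi
      have q : j + 2 + i = j + i + 2 := by ring
      rw [q, ← sr (j + i) (by omega) (by omega), ← mul_sub, abs_mul]
      have e1 : |σ' (j + i + 2)| = 1 := by
        rcases hσ' (j + i + 2) (by omega) with h | h <;> rw [h] <;> simp
      rw [e1, one_mul, hA]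
      exact ee_diff_abs hC (hc' (j + i + 2) (by omega)).1 (hc' (j + i + 2) (by omega)).2
        (hc (j + i) (by omega)).1 (hc (j + i) (by omega)).2 (cr (j + i) (by omega) (by omega))
        (cr (j + i + 1) (by omega) (by omega))
    refine (Finset.sum_le_card_nsmul _ _ _ this).trans ?_
    simp
  have e4 : |σ' j * ee C (c' j) (c' (j + 1)) + σ' (j + 1) * ee C (c' (j + 1)) (c' (j + 1 + 1))| ≤
      2 * A := by
    have q1 : σ' (j + 1) = -σ' j := by linarith
    rw [q1, ee_symm C (c' (j + 1)) (c' (j + 1 + 1))]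
    have q2 : σ' j * ee C (c' j) (c' (j + 1)) + -σ' j * ee C (c' (j + 1 + 1)) (c' (j + 1)) =
        σ' j * (ee C (c' j) (c' (j + 1)) - ee C (c' (j + 1 + 1)) (c' (j + 1))) := by ring
    rw [q2, abs_mul]
    have q3 : |σ' j| = 1 := by
      rcases hσ' j (by omega) with h | h <;> rw [h] <;> simp
    rw [q3, one_mul]
    have q4 : ‖c' j - c' (j + 1 + 1)‖ ≤ 2 * F := by
      have q5 : c' j - c' (j + 1 + 1) = (c' j - c j) - (c' (j + 2) - c j) := by
        have : j + 1 + 1 = j + 2 := by ring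
        rw [this]
        ring
      rw [q5]
      refine (norm_sub_le _ _).trans ?_
      have := cl j le_rfl
      have := cr j le_rfl (by omega)
      linarith
    have q6 := ee_diff_abs hC (V := V) (F := 2 * F) (hc' j (by omega)).1 (hc' j (by omega)).2
      (hc' (j + 1) (by omega)).2 (hc' (j + 1) (by omega)).1 q4
      (by rw [sub_self, norm_zero]; positivity)
    refine q6.trans (le_of_eq ?_)
    rw [hA]
    ring
  rw [e1, ← hA]
  refine (abs_add_le _ _).trans ?_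
  have e5 := (abs_add_le (∑ i ∈ Finset.range j,
      (σ' i * ee C (c' i) (c' (i + 1)) - σ i * ee C (c i) (c (i + 1))))
      (σ' j * ee C (c' j) (c' (j + 1)) + σ' (j + 1) * ee C (c' (j + 1)) (c' (j + 1 + 1))))
  have e6 : (((j + m : ℕ) : ℝ) + 2) * A = j * A + 2 * A + m * A := by
    push_cast
    ring
  rw [e6]
  linarith

/-! ### One run with defects -/

/-- the estimates for a run with defects, entrance `c`, exit `c'` -/
theorem Rn.est {k : ℕ} {Phi th ka K : ℝ} (hK : 1 ≤ K) (H : RunEst k Phi th ka K)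
    {x y : ℝ} (hx : 0 < x) (hxP : x ≤ Phi) (hy : |y| ≤ th) (hC : 0 ≤ Real.cosh x * Real.cos y)
    {F τ : ℝ} (hτ : τ = 1 ∨ τ = -1)
    {w : List ℕ} {k' : ℕ} {σ σ' : ℕ → ℝ} {c c' : ℕ → ℂ}
    (hσ : ∀ i < k, σ i = 1 ∨ σ i = -1)
    (h : Rn (ss x y) F τ w k k' σ σ' c c') :
    ∃ Z : ℝ, 0 ≤ Z ∧ (∀ i ≤ k, ‖c' i - c i‖ ≤ K * Z + F) ∧
      (∀ a ∈ w, ‖(1 + ss x y ^ 2) * c (a + 1) - ss x y * (c a + c (a + 2))‖ ≤ K * Z) ∧
      (∀ a ∈ w, ‖(1 + ss x y ^ 2) * c' (a + 1) - ss x y * (c' a + c' (a + 2))‖ ≤ K * Z + 4 * F) ∧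
      ∀ V : ℝ, Bdd k c V → Bdd k' c' V → 0 ≤ V →
        ka * x * Z ^ 2 - K * x * y ^ 2 * V ^ 2 -
          k * (2 * (Real.cosh x * Real.cos y + 1) * (V + F) * F) ≤
        τ * (fl (Real.cosh x * Real.cos y) k σ c - fl (Real.cosh x * Real.cos y) k' σ' c') := by
  obtain ⟨hk, hs, hw, hc⟩ := h
  subst hk
  have hF : 0 ≤ F := (norm_nonneg _).trans (hc 0 (Nat.zero_le _))
  rcases Nat.eq_zero_or_pos k' with hk0 | hk0
  · subst hk0
    have hw0 : w = [] := by
      rw [List.eq_nil_iff_forall_not_mem]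
      intro a ha
      have := (hw a ha).1
      omega
    subst hw0
    refine ⟨0, le_rfl, ?_, by simp, by simp, ?_⟩
    · intro i hi
      have := hc i hi
      unfold frun at this
      simpa using this
    · intro V _ _ _
      unfold fl
      have : 0 ≤ K * x * y ^ 2 * V ^ 2 := by positivity
      simp
      linarith
  · obtain ⟨Z, hZ, h1, h2, h3, h4⟩ := H x y hx hxP hy w (fun a ha => (hw a ha).1) c
    obtain ⟨f, hf⟩ : ∃ f, f = frun (ss x y) w c := ⟨_, rfl⟩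
    rw [← hf] at h1 h3 h4 hc
    refine ⟨Z, hZ, ?_, h2, ?_, ?_⟩
    · intro i hi
      have e1 : c' i - c i = (f i - c i) + (c' i - f i) := by ring
      rw [e1]
      exact (norm_add_le _ _).trans (add_le_add (h1 i hi) (hc i hi))
    · intro a ha
      have ha' := (hw a ha).1
      have hsn : ‖ss x y‖ ≤ 1 := by
        rw [norm_ss]
        exact Real.exp_le_one_iff.2 (by linarith)
      have e1 : (1 + ss x y ^ 2) * c' (a + 1) - ss x y * (c' a + c' (a + 2)) =
          ((1 + ss x y ^ 2) * f (a + 1) - ss x y * (f a + f (a + 2))) +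
          ((1 + ss x y ^ 2) * (c' (a + 1) - f (a + 1)) -
            (ss x y * (c' a - f a) + ss x y * (c' (a + 2) - f (a + 2)))) := by ring
      rw [e1]
      refine (norm_add_le _ _).trans (add_le_add (h3 a ha) ?_)
      refine (norm_sub_le _ _).trans ?_
      have b1 : ‖1 + ss x y ^ 2‖ ≤ 2 := by
        refine (norm_add_le _ _).trans ?_
        rw [norm_one, norm_pow]
        have := pow_le_one₀ (n := 2) (norm_nonneg _) hsn
        linarith
      have b2 : ‖(1 + ss x y ^ 2) * (c' (a + 1) - f (a + 1))‖ ≤ 2 * F := by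
        rw [norm_mul]
        exact mul_le_mul b1 (hc _ (by omega)) (norm_nonneg _) (by norm_num)
      have b3 : ‖ss x y * (c' a - f a)‖ ≤ 1 * F := by
        rw [norm_mul]
        exact mul_le_mul hsn (hc _ (by omega)) (norm_nonneg _) (by norm_num)
      have b4 : ‖ss x y * (c' (a + 2) - f (a + 2))‖ ≤ 1 * F := by
        rw [norm_mul]
        exact mul_le_mul hsn (hc _ (by omega)) (norm_nonneg _) (by norm_num)
      have b5 := norm_add_le (ss x y * (c' a - f a)) (ss x y * (c' (a + 2) - f (a + 2)))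
      linarith
    · intro V hV1 hV2 hV0
      obtain ⟨_, h5⟩ := h4 V fun i hi => hV1.le hk0 hi
      have hB1 : Bdd k' f (V + F) := by
        have : ∀ i ≤ k', ‖f i‖ ≤ V + F := by
          intro i hi
          have e1 : f i = c' i - (c' i - f i) := by ring
          rw [e1]
          exact (norm_sub_le _ _).trans (add_le_add (hV2.le hk0 hi) (hc i hi))
        exact fun i hi => ⟨this i (by omega), this (i + 1) (by omega)⟩
      have hB2 : Bdd k' c' (V + F) := fun i hi =>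
        ⟨(hV2 i hi).1.trans (by linarith), (hV2 i hi).2.trans (by linarith)⟩
      have h6 := fl_diff hC (σ := σ) (σ' := σ') hσ hs hB1 hB2 hc
      have h7 := fl_frun (Real.cosh x * Real.cos y) τ σ (ss x y) w hw c
      rw [← hf] at h7
      obtain ⟨X, hX⟩ : ∃ X, X = (k' : ℝ) * (2 * (Real.cosh x * Real.cos y + 1) * (V + F) * F) :=
        ⟨_, rfl⟩
      rw [← hX] at h6 ⊢
      rw [abs_le] at h6
      rcases hτ with rfl | rfl
      · linarith
      · linarith

/-- the estimates for one macro event -/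
theorem Ok.est {N : ℕ} {Phi th ka K : ℝ} (hka : 0 < ka) (hK : 1 ≤ K)
    (H : ∀ k ≤ N, RunEst k Phi th ka K)
    {x y : ℝ} (hx : 0 < x) (hxP : x ≤ Phi) (hy : |y| ≤ th) (hC : 0 ≤ Real.cosh x * Real.cos y)
    {F : ℝ} (hF : 0 ≤ F) {k k' : ℕ} {σ σ' : ℕ → ℝ} {c c' : ℕ → ℂ} {e : MEv}
    (hk : k ≤ N) (hk' : k' ≤ N)
    (hσ : ∀ i < k, σ i = 1 ∨ σ i = -1) (hσ' : ∀ i < k', σ' i = 1 ∨ σ' i = -1)
    (h : Ok (ss x y) F k k' σ σ' c c' e) :
    ∃ Z : ℝ, 0 ≤ Z ∧
      (∀ w, e = .dn w ∨ e = .up w → k' = k ∧ (∀ i ≤ k, ‖c' i - c i‖ ≤ K * Z + F) ∧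
        ∀ a ∈ w, a + 1 < k ∧
          ‖(1 + ss x y ^ 2) * c (a + 1) - ss x y * (c a + c (a + 2))‖ ≤ K * Z + 4 * F) ∧
      ∀ V : ℝ, Bdd k c V → Bdd k' c' V → 0 ≤ V →
        ka * x * Z ^ 2 - K * x * y ^ 2 * V ^ 2 -
          (N + 2) * (2 * (Real.cosh x * Real.cos y + 1) * (V + F) * F) ≤
        fl (Real.cosh x * Real.cos y) k σ c - fl (Real.cosh x * Real.cos y) k' σ' c' := by
  have hkR : (k : ℝ) ≤ N := by exact_mod_cast hk
  have hkR' : (k' : ℝ) ≤ N := by exact_mod_cast hk'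
  obtain ⟨C, hCd⟩ : ∃ C, C = Real.cosh x * Real.cos y := ⟨_, rfl⟩
  cases e with
  | mx j =>
    refine ⟨0, le_rfl, ?_, ?_⟩
    · rintro w (h' | h') <;> cases h'
    · intro V h1 h2 h3
      have h4 := Turn.flux hC h hσ' h1 h2
      rw [← hCd] at h4 hC ⊢
      rw [abs_le] at h4
      have h5 : (k + 2 : ℝ) * (2 * (C + 1) * V * F) ≤ (N + 2) * (2 * (C + 1) * (V + F) * F) := by
        have a1 : 2 * (C + 1) * V * F ≤ 2 * (C + 1) * (V + F) * F := by
          have : 0 ≤ (C + 1) * F * F := by positivity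
          linarith
        exact mul_le_mul (by linarith) a1 (by positivity) (by positivity)
      have h6 : 0 ≤ K * x * y ^ 2 * V ^ 2 := by positivity
      have h7 : ka * x * 0 ^ 2 = 0 := by ring
      linarith [h4.2]
  | mn j =>
    refine ⟨0, le_rfl, ?_, ?_⟩
    · rintro w (h' | h') <;> cases h'
    · intro V h1 h2 h3
      have h4 := Turn.flux hC h hσ h2 h1
      rw [← hCd] at h4 hC ⊢
      rw [abs_le] at h4
      have h5 : (k' + 2 : ℝ) * (2 * (C + 1) * V * F) ≤ (N + 2) * (2 * (C + 1) * (V + F) * F) := by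
        have a1 : 2 * (C + 1) * V * F ≤ 2 * (C + 1) * (V + F) * F := by
          have : 0 ≤ (C + 1) * F * F := by positivity
          linarith
        exact mul_le_mul (by linarith) a1 (by positivity) (by positivity)
      have h6 : 0 ≤ K * x * y ^ 2 * V ^ 2 := by positivity
      have h7 : ka * x * 0 ^ 2 = 0 := by ring
      linarith [h4.1]
  | dn w =>
    obtain ⟨Z, hZ, h1, h2, h3, h4⟩ := Rn.est hK (H k hk) hx hxP hy hC (Or.inl rfl) hσ h
    refine ⟨Z, hZ, ?_, ?_⟩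
    · rintro w' (h' | h')
      · cases h'
        exact ⟨h.hk, h1, fun a ha => ⟨(h.hw a ha).1, (h2 a ha).trans (by linarith)⟩⟩
      · cases h'
    · intro V b1 b2 b3
      have h5 := h4 V b1 b2 b3
      rw [← hCd] at h5 hC ⊢
      have a1 : (k : ℝ) * (2 * (C + 1) * (V + F) * F) ≤ (N + 2) * (2 * (C + 1) * (V + F) * F) :=
        mul_le_mul_of_nonneg_right (by linarith) (by positivity)
      linarith
  | up w =>
    obtain ⟨Z, hZ, h1, h2, h3, h4⟩ := Rn.est hK (H k' hk') hx hxP hy hC (Or.inr rfl) hσ' h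
    have hkk : k = k' := h.hk
    refine ⟨Z, hZ, ?_, ?_⟩
    · rintro w' (h' | h')
      · cases h'
      · cases h'
        refine ⟨hkk.symm, fun i hi => ?_, fun a ha => ⟨?_, h3 a ha⟩⟩
        · rw [norm_sub_rev]
          exact h1 i (by omega)
        · have := (h.hw a ha).1
          omega
    · intro V b1 b2 b3
      have h5 := h4 V b2 b1 b3
      rw [← hCd] at h5 hC ⊢
      have a1 : (k' : ℝ) * (2 * (C + 1) * (V + F) * F) ≤ (N + 2) * (2 * (C + 1) * (V + F) * F) :=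
        mul_le_mul_of_nonneg_right (by linarith) (by positivity)
      linarith

/-! ### Spreading a bound along links -/

theorem spread {α : Type*} (T : Finset α) (L : α → α → Prop) (G : α → ℝ → Prop)
    (hmono : ∀ a D D', D ≤ D' → G a D → G a D') {x0 : α} (hx0 : x0 ∈ T) {K E : ℝ} (hK : 1 ≤ K)
    (hE : 0 ≤ E) (h0 : G x0 E) (hL : ∀ a b, L a b → a ∈ T ∧ b ∈ T)
    (hstep : ∀ a b, L a b → ∀ D, 0 ≤ D → (G a D → G b (K * (D + E))) ∧ (G b D → G a (K * (D + E))))
    (hconn : ∀ S : α → Prop, S x0 → (∀ a b, L a b → (S a ↔ S b)) → ∀ a ∈ T, S a) :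
    ∀ a ∈ T, G a ((2 * K) ^ T.card * E) := by
  classical
  have key : ∀ n : ℕ, (∃ U : Finset α, U ⊆ T ∧ x0 ∈ U ∧ n + 1 ≤ U.card ∧
      ∀ a ∈ U, G a ((2 * K) ^ n * E)) ∨ ∀ a ∈ T, G a ((2 * K) ^ n * E) := by
    intro n
    induction n with
    | zero =>
      left
      refine ⟨{x0}, by simpa using hx0, by simp, by simp, fun a ha => ?_⟩
      rw [Finset.mem_singleton.1 ha]
      simpa using h0
    | succ n ih =>
      have hK2 : (1 : ℝ) ≤ 2 * K := by linarith
      have hDn : E ≤ (2 * K) ^ n * E := le_mul_of_one_le_left hE (one_le_pow₀ hK2)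
      have hD0 : 0 ≤ (2 * K) ^ n * E := hE.trans hDn
      have hinc : (2 * K) ^ n * E ≤ (2 * K) ^ (n + 1) * E := by
        rw [pow_succ]
        nlinarith
      have hnew : K * ((2 * K) ^ n * E + E) ≤ (2 * K) ^ (n + 1) * E := by
        rw [pow_succ]
        nlinarith
      rcases ih with ⟨U, hU1, hU2, hU3, hU4⟩ | h
      · by_cases hcl : ∀ a b, L a b → (a ∈ U ↔ b ∈ U)
        · right
          intro a ha
          exact hmono _ _ _ hinc (hU4 a (hconn (· ∈ U) hU2 hcl a ha))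
        · left
          push Not at hcl
          obtain ⟨a, b, hab, hne⟩ := hcl
          obtain ⟨haT, hbT⟩ := hL a b hab
          rcases hne with ⟨ha, hb⟩ | ⟨ha, hb⟩
          · refine ⟨insert b U, Finset.insert_subset hbT hU1, Finset.mem_insert_of_mem hU2, ?_, ?_⟩
            · rw [Finset.card_insert_of_notMem hb]
              omega
            · intro e he
              rcases Finset.mem_insert.1 he with rfl | he
              · exact hmono _ _ _ hnew ((hstep a _ hab _ hD0).1 (hU4 a ha))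
              · exact hmono _ _ _ hinc (hU4 e he)
          · refine ⟨insert a U, Finset.insert_subset haT hU1, Finset.mem_insert_of_mem hU2, ?_, ?_⟩
            · rw [Finset.card_insert_of_notMem ha]
              omega
            · intro e he
              rcases Finset.mem_insert.1 he with rfl | he
              · exact hmono _ _ _ hnew ((hstep _ b hab _ hD0).2 (hU4 b hb))
              · exact hmono _ _ _ hinc (hU4 e he)
      · right
        intro a ha
        exact hmono _ _ _ hinc (h a ha)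
  rcases key T.card with ⟨U, hU1, _, hU3, _⟩ | h
  · have := Finset.card_le_card hU1
    omega
  · exact h

end Pool.Agent.Helper78.EV2
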