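import Pool.Agent.Helper78.EV2.Box

/-!
# The estimates for one run of crossings, uniform in the word
-/

set_option autoImplicit false

namespace Pool.Agent.Helper78.EV2

open Matrix Pool.Agent.Helper99.ZB Pool.Agent.Helper78.EV

/-- the conclusions for one run -/
def RunEst (k : ℕ) (Phi th ka K : ℝ) : Prop :=
  ∀ x y : ℝ, 0 < x → x ≤ Phi → |y| ≤ th → ∀ w : List ℕ, (∀ a ∈ w, a + 1 < k) →
    ∀ c : ℕ → ℂ, ∃ Z : ℝ, 0 ≤ Z ∧
      (∀ i ≤ k, ‖frun (ss x y) w c i - c i‖ ≤ K * Z) ∧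
      (∀ a ∈ w, ‖(1 + ss x y ^ 2) * c (a + 1) - ss x y * (c a + c (a + 2))‖ ≤ K * Z) ∧
      (∀ a ∈ w, ‖(1 + ss x y ^ 2) * frun (ss x y) w c (a + 1) -
        ss x y * (frun (ss x y) w c a + frun (ss x y) w c (a + 2))‖ ≤ K * Z) ∧
      ∀ M : ℝ, (∀ i ≤ k, ‖c i‖ ≤ M) → Z ≤ K * M ∧
        ka * x * Z ^ 2 ≤ hh (Real.cosh x * Real.cos y) (gv k c) -
          hh (Real.cosh x * Real.cos y) (gv k (frun (ss x y) w c)) + K * x * y ^ 2 * M ^ 2

theorem RunEst.mono {k : ℕ} {Phi th ka K th' ka' K' : ℝ} (h : RunEst k Phi th ka K)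
    (hth : th' ≤ th) (hka : ka' ≤ ka) (hK0 : 0 ≤ K) (hK : K ≤ K') : RunEst k Phi th' ka' K' := by
  intro x y hx hxP hy w hw c
  obtain ⟨Z, hZ, h1, h2, h3, h4⟩ := h x y hx hxP (hy.trans hth) w hw c
  have e : K * Z ≤ K' * Z := mul_le_mul_of_nonneg_right hK hZ
  refine ⟨Z, hZ, fun i hi => (h1 i hi).trans e, fun a ha => (h2 a ha).trans e,
    fun a ha => (h3 a ha).trans e, fun M hM => ?_⟩
  obtain ⟨h5, h6⟩ := h4 M hM
  have hM0 : 0 ≤ M := (norm_nonneg _).trans (hM 0 (Nat.zero_le _))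
  constructor
  · exact h5.trans (mul_le_mul_of_nonneg_right hK hM0)
  · have e1 : ka' * x * Z ^ 2 ≤ ka * x * Z ^ 2 := by
      apply mul_le_mul_of_nonneg_right _ (sq_nonneg _)
      exact mul_le_mul_of_nonneg_right hka hx.le
    have e2 : K * x * y ^ 2 * M ^ 2 ≤ K' * x * y ^ 2 * M ^ 2 := by
      apply mul_le_mul_of_nonneg_right _ (sq_nonneg _)
      apply mul_le_mul_of_nonneg_right _ (sq_nonneg _)
      exact mul_le_mul_of_nonneg_right hK hx.le
    linarith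

theorem norm_gv_le {k : ℕ} {c : ℕ → ℂ} {M : ℝ} (hM : ∀ i ≤ k, ‖c i‖ ≤ M) : ‖gv k c‖ ≤ M := by
  have hM0 : 0 ≤ M := (norm_nonneg _).trans (hM 0 (Nat.zero_le _))
  rw [pi_norm_le_iff_of_nonneg hM0]
  intro i
  exact hM i (by omega)

theorem runEst_one (k : ℕ) {Phi : ℝ} (hPhi : 0 ≤ Phi) :
    ∃ th > 0, ∃ ka > 0, ∃ K ≥ 1, RunEst k Phi th ka K := by
  have hk := kap_lt (k + 1)
  obtain ⟨c1, hc1⟩ : ∃ c1, c1 = Real.exp (-Phi) / (1 + 2 * Phi) := ⟨_, rfl⟩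
  have hc1pos : 0 < c1 := by
    rw [hc1]
    have := Real.exp_pos (-Phi)
    positivity
  have hEp := Real.exp_pos Phi
  obtain ⟨Lam, hLam⟩ : ∃ Lam, Lam = (((k + 1 : ℕ) : ℝ) + 1) * (Real.exp Phi + ((k + 1 : ℕ) : ℝ)) :=
    ⟨_, rfl⟩
  obtain ⟨lam, hlam⟩ : ∃ lam, lam = (1 - Real.cos (Real.pi / (((k + 1 : ℕ) : ℝ) + 1))) / 2 :=
    ⟨_, rfl⟩
  obtain ⟨D, hD⟩ : ∃ D, D = Real.exp Phi * (1 + Phi) := ⟨_, rfl⟩
  obtain ⟨K0, hK0⟩ : ∃ K0, K0 = 36 * Real.exp Phi ^ 2 / c1 + 4 * Real.exp Phi ^ 2 * Phi := ⟨_, rfl⟩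
  have hl : 0 < lam := by rw [hlam]; linarith
  have hL : 0 < Lam := by rw [hLam]; positivity
  have hD0 : 0 ≤ D := by rw [hD]; positivity
  obtain ⟨de, hde, th, hth, H⟩ := main (k + 1) (Lam := Lam) (lam := lam) (c1 := c1)
    (K := K0) (D := D) hl hL hD0 hc1pos (by rw [hK0]; positivity) (k + 1)
  obtain ⟨Q, hQ⟩ : ∃ Q, Q = Lam / lam + 1 := ⟨_, rfl⟩
  have hQ1 : 1 ≤ Q := by
    rw [hQ]
    have : 0 < Lam / lam := by positivity
    linarith
  have hQ2 : Lam ≤ lam * Q ^ 2 := by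
    have h1 : Lam = lam * (Q - 1) := by
      rw [hQ]
      field_simp
      ring
    rw [h1]
    apply mul_le_mul_of_nonneg_left _ hl.le
    nlinarith
  obtain ⟨Cc, hCc⟩ : ∃ Cc, Cc = ((k + 1 : ℕ) : ℝ) * (Lam + D) / lam := ⟨_, rfl⟩
  have hCc0 : 0 ≤ Cc := by rw [hCc]; positivity
  obtain ⟨K1, hK1⟩ : ∃ K1, K1 = (4 * ((k + 1 : ℕ) : ℝ) * Q * D * (1 + Cc)) ^ 2 /
      (2 * (de * lam)) := ⟨_, rfl⟩
  have hK1' : 0 ≤ K1 := by rw [hK1]; positivity
  have hQ0 : 0 ≤ Q := by linarith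
  have hA : 0 ≤ 2 * (Lam + D) * Q := by positivity
  obtain ⟨Kb, hKb⟩ : ∃ Kb, Kb = 1 + Q + Cc + K1 + 2 * (Lam + D) * Q := ⟨_, rfl⟩
  have k1 : 1 + Q ≤ Kb := by rw [hKb]; linarith
  have k2 : Cc ≤ Kb := by rw [hKb]; linarith
  have k3 : K1 ≤ Kb := by rw [hKb]; linarith
  have k4 : 2 * (Lam + D) * Q ≤ Kb := by rw [hKb]; linarith
  have k5 : 2 * (Lam + D) ≤ Kb := by
    refine le_trans ?_ k4
    have : 0 ≤ 2 * (Lam + D) := by positivity
    nlinarith
  refine ⟨min th (min 1 (1 - Real.cos (Real.pi / (((k + 1 : ℕ) : ℝ) + 1)))),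
    lt_min hth (lt_min one_pos (by linarith)), de * lam / 2, by positivity,
    Kb, by linarith, ?_⟩
  intro x y hx hxP hy w hw c
  have y1 : |y| ≤ th := hy.trans (min_le_left _ _)
  have y2 : |y| ≤ 1 := hy.trans ((min_le_right _ _).trans (min_le_left _ _))
  have y3 : |y| ≤ 1 - Real.cos (Real.pi / (((k + 1 : ℕ) : ℝ) + 1)) :=
    hy.trans ((min_le_right _ _).trans (min_le_right _ _))
  have R := reg (k + 1) Phi hPhi hx hxP y2 y3
  rw [← hc1, ← hLam, ← hlam, ← hK0, ← hD] at R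
  obtain ⟨w', hw1, hw2⟩ := gv_frun (ss_sq x y) w hw
  have hcon := H x y _ _ _ R y1 w'.toFinset (by
    refine (Finset.card_le_univ _).trans ?_
    simp)
  obtain ⟨z, hz1, hz2, hz3, hz4⟩ := R.part hl hL.le hD0 hQ1 hQ2 (le_of_eq hCc.symm) hde hcon
    (gv k c)
  obtain ⟨h1, h2, h3⟩ := hz4 w' (fun a => by simp)
  rw [← hw2 c] at h1 h3
  rw [← hK1] at h3
  have hZ0 := norm_nonneg z
  have hsn : ‖ss x y‖ ≤ 1 := by
    rw [norm_ss]
    exact Real.exp_le_one_iff.2 (by linarith)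
  have hell : ∀ (a : Fin (k + 1)) (v : Fin (k + 1) → ℂ),
      ‖ell (ss x y) (k + 1) a ⬝ᵥ v‖ ≤ 2 * (Lam + D) * ‖v‖ := by
    intro a v
    rw [R.ell_form a v, norm_mul, norm_mul]
    have e1 : ‖(2 : ℂ)‖ = 2 := by norm_num
    have e2 : ‖T (Real.cosh x * Real.cos y) v a +
        ((Real.sinh x * Real.sin y : ℝ) : ℂ) * Complex.I * v a‖ ≤ (Lam + D) * ‖v‖ := by
      refine (norm_add_le _ _).trans ?_
      rw [norm_dI, add_mul]
      have a1 := R.T_le v a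
      have a2 : |Real.sinh x * Real.sin y| * ‖v a‖ ≤ D * ‖v‖ :=
        mul_le_mul R.hd' (norm_le_pi_norm v a) (norm_nonneg _) hD0
      linarith
    rw [e1]
    have e3 := norm_nonneg (ss x y)
    calc 2 * ‖ss x y‖ * ‖T (Real.cosh x * Real.cos y) v a +
        ((Real.sinh x * Real.sin y : ℝ) : ℂ) * Complex.I * v a‖ ≤
          2 * 1 * ((Lam + D) * ‖v‖) := by
          apply mul_le_mul _ e2 (norm_nonneg _) (by norm_num)
          linarith
      _ = _ := by ring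
  refine ⟨‖z‖, hZ0, ?_, ?_, ?_, ?_⟩
  · intro i hi
    have e1 : frun (ss x y) w c i - c i = (act (ss x y) w' z - z) (⟨i, by omega⟩ : Fin (k + 1)) := by
      have e2 := congrFun h1 (⟨i, by omega⟩ : Fin (k + 1))
      have e3 : gv k (frun (ss x y) w c) (⟨i, by omega⟩ : Fin (k + 1)) =
        frun (ss x y) w c i := rfl
      rw [e3] at e2
      rw [e2]
      have e4 : gv k c (⟨i, by omega⟩ : Fin (k + 1)) = c i := rfl
      simp only [Pi.add_apply, Pi.sub_apply, e4]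
      ring
    rw [e1]
    refine (norm_le_pi_norm _ _).trans ((norm_sub_le _ _).trans ?_)
    have := mul_le_mul_of_nonneg_right k1 hZ0
    linarith
  · intro a ha
    have ha' := hw a ha
    rw [← ell_gv ha' (ss_sq x y)]
    have hmem : (⟨a + 1, by omega⟩ : Fin (k + 1)) ∈ w'.toFinset := by
      rw [List.mem_toFinset, hw1]
      exact ⟨a, ha, rfl⟩
    have e1 := hz2 _ hmem
    rw [dotProduct_sub, sub_eq_zero] at e1
    rw [e1]
    exact (hell _ z).trans (mul_le_mul_of_nonneg_right k5 hZ0)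
  · intro a ha
    have ha' := hw a ha
    rw [← ell_gv ha' (ss_sq x y)]
    have hmem : (⟨a + 1, by omega⟩ : Fin (k + 1)) ∈ w'.toFinset := by
      rw [List.mem_toFinset, hw1]
      exact ⟨a, ha, rfl⟩
    have e1 := hz2 _ hmem
    rw [h1, dotProduct_add, e1, add_zero]
    refine (hell _ _).trans ?_
    have e2 : 0 ≤ 2 * (Lam + D) := by positivity
    have e3 := mul_le_mul_of_nonneg_left h2 e2
    have e4 := mul_le_mul_of_nonneg_right k4 hZ0
    linarith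
  · intro M hM
    have hM0 : 0 ≤ M := (norm_nonneg _).trans (hM 0 (Nat.zero_le _))
    have hv := norm_gv_le hM
    constructor
    · refine hz3.trans ?_
      have e1 : Cc * ‖gv k c‖ ≤ Cc * M := mul_le_mul_of_nonneg_left hv hCc0
      exact e1.trans (mul_le_mul_of_nonneg_right k2 hM0)
    · have e1 : K1 * x * y ^ 2 * ‖gv k c‖ ^ 2 ≤ K1 * x * y ^ 2 * M ^ 2 := by
        apply mul_le_mul_of_nonneg_left _ (by positivity)
        exact pow_le_pow_left₀ (norm_nonneg _) hv 2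
      have e2 : K1 * x * y ^ 2 * M ^ 2 ≤ Kb * x * y ^ 2 * M ^ 2 := by
        apply mul_le_mul_of_nonneg_right _ (sq_nonneg _)
        apply mul_le_mul_of_nonneg_right _ (sq_nonneg _)
        exact mul_le_mul_of_nonneg_right k3 hx.le
      linarith

theorem runEst (N : ℕ) {Phi : ℝ} (hPhi : 0 ≤ Phi) :
    ∃ th > 0, ∃ ka > 0, ∃ K ≥ 1, ∀ k ≤ N, RunEst k Phi th ka K := by
  induction N with
  | zero =>
    obtain ⟨th, hth, ka, hka, K, hK, H⟩ := runEst_one 0 hPhi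
    exact ⟨th, hth, ka, hka, K, hK, fun k hk => by rwa [Nat.le_zero.1 hk]⟩
  | succ N ih =>
    obtain ⟨th, hth, ka, hka, K, hK, H⟩ := ih
    obtain ⟨th', hth', ka', hka', K', hK', H'⟩ := runEst_one (N + 1) hPhi
    refine ⟨min th th', lt_min hth hth', min ka ka', lt_min hka hka', max K K',
      le_trans hK (le_max_left _ _), fun k hk => ?_⟩
    rcases Nat.lt_or_ge k (N + 1) with h | h
    · exact (H k (by omega)).mono (min_le_left _ _) (min_le_left _ _) (by linarith)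
        (le_max_left _ _)
    · have : k = N + 1 := by omega
      subst this
      exact H'.mono (min_le_right _ _) (min_le_right _ _) (by linarith) (le_max_right _ _)

theorem two_cosh (x y : ℝ) : 2 * Complex.cosh ((x : ℂ) + y * Complex.I) * ss x y =
    1 + ss x y ^ 2 := by
  have h1 : ((Real.cosh x * Real.cos y : ℝ) : ℂ) +
      ((Real.sinh x * Real.sin y : ℝ) : ℂ) * Complex.I = Complex.cosh ((x : ℂ) + y * Complex.I) := by
    rw [Complex.cosh_add, Complex.cosh_mul_I, Complex.sinh_mul_I]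
    push_cast
    ring
  rw [ss_sq, h1]
  ring

theorem div_ss {x y Phi : ℝ} (hxP : x ≤ Phi) {u v w : ℂ} {A : ℝ}
    (h : ‖(1 + ss x y ^ 2) * v - ss x y * (u + w)‖ ≤ A) :
    ‖2 * Complex.cosh ((x : ℂ) + y * Complex.I) * v - u - w‖ ≤ Real.exp Phi * A := by
  have h0 : 2 * Complex.cosh ((x : ℂ) + y * Complex.I) * v - u - w =
      (ss x y)⁻¹ * ((1 + ss x y ^ 2) * v - ss x y * (u + w)) := by
    have := ss_ne_zero x y
    rw [← two_cosh]
    field_simp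
    ring
  have h1 : ‖(ss x y)⁻¹‖ ≤ Real.exp Phi := by
    rw [norm_inv, norm_ss, ← Real.exp_neg, neg_neg]
    exact Real.exp_le_exp.2 hxP
  rw [h0, norm_mul]
  exact mul_le_mul h1 h (norm_nonneg _) (Real.exp_pos _).le

/-- **the run lemma**: `c` the values at the entrance, `frun` the values at the exit of a run -/
theorem run (N : ℕ) {Phi : ℝ} (hPhi : 0 ≤ Phi) :
    ∃ th > 0, ∃ de > 0, ∃ K ≥ 1, ∀ k ≤ N, ∀ x y : ℝ, 0 < x → x ≤ Phi → |y| ≤ th →
      ∀ w : List ℕ, (∀ a ∈ w, a + 1 < k) → ∀ c : ℕ → ℂ, ∃ H : ℝ, 0 ≤ H ∧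
        (∀ i ≤ k, ‖c i - frun (ss x y) w c i‖ ≤ K * Real.sqrt H) ∧
        (∀ a ∈ w, ‖2 * Complex.cosh ((x : ℂ) + y * Complex.I) * c (a + 1) - c a - c (a + 2)‖ ≤
          K * Real.sqrt H) ∧
        (∀ a ∈ w, ‖2 * Complex.cosh ((x : ℂ) + y * Complex.I) * frun (ss x y) w c (a + 1) -
          frun (ss x y) w c a - frun (ss x y) w c (a + 2)‖ ≤ K * Real.sqrt H) ∧
        ∀ M : ℝ, (∀ i ≤ k, ‖c i‖ ≤ M) → Real.sqrt H ≤ K * M ∧
          de * x * H - K * x * y ^ 2 * M ^ 2 ≤ ∑ i ∈ Finset.range k,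
            (ee (Real.cosh x * Real.cos y) (c i) (c (i + 1)) -
              ee (Real.cosh x * Real.cos y) (frun (ss x y) w c i) (frun (ss x y) w c (i + 1))) := by
  obtain ⟨th, hth, ka, hka, K, hK, H⟩ := runEst N hPhi
  have hE : 1 ≤ Real.exp Phi := Real.one_le_exp hPhi
  have hKK : K ≤ Real.exp Phi * K := by nlinarith
  refine ⟨th, hth, ka, hka, Real.exp Phi * K, by linarith, ?_⟩
  intro k hk x y hx hxP hy w hw c
  obtain ⟨Z, hZ, h1, h2, h3, h4⟩ := H k hk x y hx hxP hy w hw c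
  have hs : Real.sqrt (Z ^ 2) = Z := Real.sqrt_sq hZ
  refine ⟨Z ^ 2, sq_nonneg _, ?_, ?_, ?_, ?_⟩
  · intro i hi
    rw [hs, norm_sub_rev]
    exact (h1 i hi).trans (mul_le_mul_of_nonneg_right hKK hZ)
  · intro a ha
    rw [hs, mul_assoc (Real.exp Phi)]
    exact div_ss hxP (h2 a ha)
  · intro a ha
    rw [hs, mul_assoc (Real.exp Phi)]
    exact div_ss hxP (h3 a ha)
  · intro M hM
    have hM0 : 0 ≤ M := (norm_nonneg _).trans (hM 0 (Nat.zero_le _))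
    obtain ⟨h5, h6⟩ := h4 M hM
    rw [hs]
    refine ⟨h5.trans (mul_le_mul_of_nonneg_right hKK hM0), ?_⟩
    have h7 := fl_frun (k := k) (Real.cosh x * Real.cos y) 1 (fun _ => 1) (ss x y) w
      (fun a ha => ⟨hw a ha, rfl, rfl⟩) c
    have h8 : ∑ i ∈ Finset.range k, (ee (Real.cosh x * Real.cos y) (c i) (c (i + 1)) -
        ee (Real.cosh x * Real.cos y) (frun (ss x y) w c i) (frun (ss x y) w c (i + 1))) =
        fl (Real.cosh x * Real.cos y) k (fun _ => 1) c -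
          fl (Real.cosh x * Real.cos y) k (fun _ => 1) (frun (ss x y) w c) := by
      unfold fl
      rw [← Finset.sum_sub_distrib]
      exact Finset.sum_congr rfl fun i _ => by ring
    rw [h8]
    have h9 : K * (x * y ^ 2 * M ^ 2) ≤ Real.exp Phi * K * (x * y ^ 2 * M ^ 2) :=
      mul_le_mul_of_nonneg_right hKK (by positivity)
    linarith

end Pool.Agent.Helper78.EV2
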